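import Pool.Agent.Lib.MP_7c08ba_nt.Gen.Defs

/-!
Primes of a number field and embeddings into the algebraic closures of `ℚ_l`; from the condition
`PowAway` to `S`-units, for a class number prime to `p`.
-/

namespace BKGen
namespace RT

open NumberField UniqueFactorizationMonoid

/-- integral elements have norm at most one -/
theorem norm_int_le {l : ℕ} [Fact l.Prime] {x : PadicAlgCl l} (hx : IsIntegral ℤ x) :
    ‖x‖ ≤ 1 := by
  obtain ⟨P, hP, he⟩ := hx
  by_contra hcon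
  push Not at hcon
  have hint : ∀ m : ℤ, ‖(m : PadicAlgCl l)‖ ≤ 1 := by
    intro m
    have h1 : (m : PadicAlgCl l) = algebraMap ℚ_[l] (PadicAlgCl l) (m : ℚ_[l]) := by simp
    have h2 := PadicAlgCl.norm_extends l (m : ℚ_[l])
    rw [h1]
    exact h2.le.trans (Padic.norm_int_le_one m)
  have hd : P.natDegree ≠ 0 := by
    intro h0
    have h1 := Polynomial.eq_one_of_monic_natDegree_zero hP h0
    rw [h1] at he
    simp at he
  rw [Polynomial.eval₂_eq_sum_range, Finset.sum_range_succ, hP.coeff_natDegree, map_one,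
    one_mul] at he
  have h1 : x ^ P.natDegree = -∑ i ∈ Finset.range P.natDegree,
      (algebraMap ℤ (PadicAlgCl l)) (P.coeff i) * x ^ i := by
    linear_combination he
  have h2 : ‖x‖ ^ P.natDegree ≤ ‖x‖ ^ (P.natDegree - 1) := by
    rw [← norm_pow, h1, norm_neg]
    refine IsUltrametricDist.norm_sum_le_of_forall_le_of_nonneg (by positivity) fun i hi => ?_
    rw [norm_mul, norm_pow]
    have h3 : ‖(algebraMap ℤ (PadicAlgCl l)) (P.coeff i)‖ ≤ 1 := by
      simpa using hint (P.coeff i)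
    have h4 : i ≤ P.natDegree - 1 := by
      rw [Finset.mem_range] at hi
      omega
    calc _ ≤ 1 * ‖x‖ ^ i := by gcongr
      _ = ‖x‖ ^ i := one_mul _
      _ ≤ _ := pow_le_pow_right₀ hcon.le h4
  have h3 : ‖x‖ ^ (P.natDegree - 1) < ‖x‖ ^ P.natDegree :=
    pow_lt_pow_right₀ hcon (by omega)
  linarith

theorem norm_nat_lt {l : ℕ} [Fact l.Prime] : ‖(l : PadicAlgCl l)‖ < 1 := by
  have h1 : (l : PadicAlgCl l) = algebraMap ℚ_[l] (PadicAlgCl l) (l : ℚ_[l]) := by simp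
  rw [h1]
  refine (PadicAlgCl.norm_extends l (l : ℚ_[l])).le.trans_lt ?_
  exact Padic.norm_p_lt_one

variable {L : Type*} [Field L] [NumberField L]

/-- the prime ideal of an embedding -/
def pr {l : ℕ} [Fact l.Prime] (j : L →+* PadicAlgCl l) : Ideal (𝓞 L) where
  carrier := {y | ‖j (y : L)‖ < 1}
  zero_mem' := by simp
  add_mem' := by
    intro a b ha hb
    have h1 : j ((a + b : 𝓞 L) : L) = j (a : L) + j (b : L) := by simp
    rw [Set.mem_ofPred_eq, h1]
    exact (IsUltrametricDist.norm_add_le_max _ _).trans_lt (max_lt ha hb)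
  smul_mem' := by
    intro c a ha
    have h1 : j ((c • a : 𝓞 L) : L) = j (c : L) * j (a : L) := by simp
    rw [Set.mem_ofPred_eq, h1, norm_mul]
    have h2 : ‖j (c : L)‖ ≤ 1 := by
      apply norm_int_le
      exact (c.isIntegral_coe).map j.toIntAlgHom
    calc ‖j (c : L)‖ * ‖j (a : L)‖ ≤ 1 * ‖j (a : L)‖ := by gcongr
      _ < 1 := by rw [one_mul]; exact ha

theorem mem_pr {l : ℕ} [Fact l.Prime] {j : L →+* PadicAlgCl l} {y : 𝓞 L} :
    y ∈ pr j ↔ ‖j (y : L)‖ < 1 := Iff.rfl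

omit [NumberField L] in
theorem norm_emb_le {l : ℕ} [Fact l.Prime] (j : L →+* PadicAlgCl l) (c : 𝓞 L) :
    ‖j (c : L)‖ ≤ 1 := by
  apply norm_int_le
  exact (c.isIntegral_coe).map j.toIntAlgHom

instance pr_prime {l : ℕ} [Fact l.Prime] (j : L →+* PadicAlgCl l) : (pr j).IsPrime := by
  refine Ideal.isPrime_iff.2 ⟨?_, ?_⟩
  · rw [Ideal.ne_top_iff_one, mem_pr]
    simp
  · intro x y hxy
    rw [mem_pr] at hxy
    by_contra hcon
    push Not at hcon
    obtain ⟨h1, h2⟩ := hcon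
    rw [mem_pr, not_lt] at h1 h2
    have h3 : j ((x * y : 𝓞 L) : L) = j (x : L) * j (y : L) := by simp
    rw [h3, norm_mul] at hxy
    have := norm_emb_le j x
    nlinarith

theorem pr_ne_bot {l : ℕ} [Fact l.Prime] (j : L →+* PadicAlgCl l) : pr j ≠ ⊥ := by
  intro h
  have h1 : ((l : ℕ) : 𝓞 L) ∈ pr j := by
    rw [mem_pr]
    simpa using norm_nat_lt (l := l)
  rw [h, Ideal.mem_bot] at h1
  have : (l : 𝓞 L) ≠ 0 := by
    exact_mod_cast (Fact.out : l.Prime).ne_zero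
  exact this h1

/-- every prime above `l` comes from an embedding -/
theorem exists_emb (q : Ideal (𝓞 L)) [hq : q.IsPrime] (h0 : q ≠ ⊥) {l : ℕ} [hl : Fact l.Prime]
    (hlq : (l : 𝓞 L) ∈ q) : ∃ j : L →+* PadicAlgCl l, q = pr j := by
  classical
  have hsub : (q : Set (𝓞 L)) ⊆ ⋃ σ ∈ ((Finset.univ : Finset (L →ₐ[ℚ] PadicAlgCl l)) :
      Set (L →ₐ[ℚ] PadicAlgCl l)), (pr (σ : L →+* PadicAlgCl l) : Set (𝓞 L)) := by
    intro y hy
    -- the prime `l` divides the norm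
    have h1 : ((Ideal.absNorm q : ℕ) : ℤ) ∣ Algebra.norm ℤ y := Ideal.absNorm_dvd_norm_of_mem hy
    have h2 : l ∣ Ideal.absNorm q := by
      have h3 : Ideal.absNorm q ∣ Ideal.absNorm (Ideal.span {(l : 𝓞 L)}) :=
        Ideal.absNorm_dvd_absNorm_of_le ((Ideal.span_singleton_le_iff_mem q).2 hlq)
      have h4 : Ideal.absNorm (Ideal.span {(l : 𝓞 L)}) = l ^ Module.finrank ℤ (𝓞 L) := by
        rw [Ideal.absNorm_span_singleton]
        have h5 : (l : 𝓞 L) = algebraMap ℤ (𝓞 L) (l : ℤ) := by simp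
        rw [h5, Algebra.norm_algebraMap]
        simp [Int.natAbs_pow]
      rw [h4, Nat.dvd_prime_pow hl.out] at h3
      obtain ⟨k, -, hk⟩ := h3
      have hk0 : k ≠ 0 := by
        rintro rfl
        rw [pow_zero, Ideal.absNorm_eq_one_iff] at hk
        exact hq.ne_top hk
      rw [hk]
      exact dvd_pow_self l hk0
    have h3 : (l : ℤ) ∣ Algebra.norm ℤ y := (Int.natCast_dvd_natCast.2 h2).trans h1
    have h4 := Algebra.norm_eq_prod_embeddings ℚ (PadicAlgCl l) (y : L)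
    have h5 : ‖algebraMap ℚ (PadicAlgCl l) (Algebra.norm ℚ (y : L))‖ < 1 := by
      have h6 : Algebra.norm ℚ (y : L) = ((Algebra.norm ℤ y : ℤ) : ℚ) := by
        have := Algebra.norm_localization ℤ (nonZeroDivisors ℤ) (Rₘ := ℚ) (Sₘ := L) y
        simpa using this
      obtain ⟨m, hm⟩ := h3
      rw [h6, hm]
      have h7 : algebraMap ℚ (PadicAlgCl l) (((l : ℤ) * m : ℤ) : ℚ) =
          (l : PadicAlgCl l) * ((m : ℤ) : PadicAlgCl l) := by
        push_cast
        simp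
      rw [h7, norm_mul]
      have h8 : ‖((m : ℤ) : PadicAlgCl l)‖ ≤ 1 := norm_int_le (isIntegral_algebraMap (x := m))
      calc _ ≤ ‖(l : PadicAlgCl l)‖ * 1 := by gcongr
        _ < 1 := by rw [mul_one]; exact norm_nat_lt
    rw [h4, norm_prod] at h5
    by_contra hcon
    simp only [Finset.coe_univ, Set.mem_univ, Set.iUnion_true, Set.mem_iUnion, not_exists] at hcon
    have h6 : (1 : ℝ) ≤ ∏ σ : L →ₐ[ℚ] PadicAlgCl l, ‖σ (y : L)‖ := by
      rw [← Finset.prod_const_one (s := (Finset.univ : Finset (L →ₐ[ℚ] PadicAlgCl l)))]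
      refine Finset.prod_le_prod (fun _ _ => zero_le_one) fun σ _ => ?_
      have h7 := hcon σ
      rw [SetLike.mem_coe, mem_pr, not_lt] at h7
      exact h7
    linarith
  have σ₀ : L →ₐ[ℚ] PadicAlgCl l := IsAlgClosed.lift
  rw [Ideal.subset_union_prime σ₀ σ₀ (fun σ _ _ _ => pr_prime _)] at hsub
  obtain ⟨σ, -, hσ⟩ := hsub
  refine ⟨σ, ?_⟩
  have hmax : q.IsMaximal := hq.isMaximal h0
  exact hmax.eq_of_le (pr_prime _).ne_top hσ

/-- powers by the class number are principal -/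
theorem pow_class (I : Ideal (𝓞 L)) (hI : I ≠ ⊥) :
    ∃ z : 𝓞 L, I ^ classNumber L = Ideal.span {z} := by
  have h0 : I ∈ nonZeroDivisors (Ideal (𝓞 L)) := mem_nonZeroDivisors_of_ne_zero hI
  have h1 : (ClassGroup.mk0 ⟨I, h0⟩) ^ classNumber L = 1 := pow_card_eq_one
  rw [← map_pow, ClassGroup.mk0_eq_one_iff] at h1
  obtain ⟨z, hz⟩ := h1
  exact ⟨z, by simpa using hz⟩

omit [NumberField L] in
/-- the norm of a unit -/
theorem norm_unit {l : ℕ} [Fact l.Prime] (j : L →+* PadicAlgCl l) (u : (𝓞 L)ˣ) :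
    ‖j ((u : 𝓞 L) : L)‖ = 1 := by
  have h1 := norm_emb_le j (u : 𝓞 L)
  have h2 := norm_emb_le j ((u⁻¹ : (𝓞 L)ˣ) : 𝓞 L)
  have h3 : j ((u : 𝓞 L) : L) * j (((u⁻¹ : (𝓞 L)ˣ) : 𝓞 L) : L) = 1 := by
    rw [← map_mul, ← map_mul, Units.mul_inv]
    simp
  have h4 : ‖j ((u : 𝓞 L) : L)‖ * ‖j (((u⁻¹ : (𝓞 L)ˣ) : 𝓞 L) : L)‖ = 1 := by
    rw [← norm_mul, h3, norm_one]
  have h5 := norm_nonneg (j ((u : 𝓞 L) : L))
  nlinarith

/-- multiplicity of a prime and the norm -/
theorem exists_unif (q : Ideal (𝓞 L)) [hq : q.IsPrime] (h0 : q ≠ ⊥) {l : ℕ} [hl : Fact l.Prime]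
    (j : L →+* PadicAlgCl l) (hj : q = pr j) : ∃ r : ℝ, 0 < r ∧ r < 1 ∧ ∀ y : 𝓞 L, y ≠ 0 →
    ‖j (y : L)‖ ^ classNumber L = r ^ (multiplicity q (Ideal.span {y})) := by
  obtain ⟨π, hπ⟩ := pow_class q h0
  have hc0 : classNumber L ≠ 0 := classNumber_ne_zero L
  have hπ0 : π ≠ 0 := by
    rintro rfl
    rw [Ideal.span_singleton_eq_bot.2 rfl] at hπ
    exact h0 (pow_eq_zero_iff hc0 |>.1 hπ)
  have hπq : π ∈ q := by
    have h1 : Ideal.span {π} ≤ q := by
      rw [← hπ]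
      exact Ideal.pow_le_self hc0
    exact (Ideal.span_singleton_le_iff_mem q).1 h1
  refine ⟨‖j (π : L)‖, ?_, ?_, fun y hy => ?_⟩
  · rw [norm_pos_iff]
    intro h
    rw [map_eq_zero] at h
    exact hπ0 (by exact_mod_cast h)
  · rw [hj] at hπq
    exact hπq
  · have hprime : Prime q := Ideal.prime_of_isPrime h0 hq
    have hys : Ideal.span {y} ≠ ⊥ := by
      rw [Ne, Ideal.span_singleton_eq_bot]
      exact hy
    have hfin : FiniteMultiplicity q (Ideal.span {y}) :=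
      FiniteMultiplicity.of_prime_left hprime hys
    obtain ⟨m, hm, hndvd⟩ := hfin.exists_eq_pow_mul_and_not_dvd
    set n := multiplicity q (Ideal.span {y}) with hn
    have hm0 : m ≠ ⊥ := by
      rintro rfl
      rw [Ideal.mul_bot] at hm
      exact hys hm
    obtain ⟨z, hz⟩ := pow_class m hm0
    have hzq : z ∉ q := by
      intro hzq
      have h1 : q ∣ Ideal.span {z} := by
        rw [Ideal.dvd_span_singleton]
        exact hzq
      rw [← hz] at h1
      exact hndvd (hprime.dvd_of_dvd_pow h1)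
    have h1 : Ideal.span {y ^ classNumber L} = Ideal.span {π ^ n * z} := by
      rw [← Ideal.span_singleton_pow, hm, mul_pow, ← pow_mul, mul_comm n, pow_mul, hπ, hz,
        Ideal.span_singleton_pow, Ideal.span_singleton_mul_span_singleton]
    rw [Ideal.span_singleton_eq_span_singleton] at h1
    obtain ⟨u, hu⟩ := h1
    have h2 : ‖j (z : L)‖ = 1 := by
      have h3 := norm_emb_le j z
      rw [hj, mem_pr, not_lt] at hzq
      exact le_antisymm h3 hzq
    have h3 : j ((y ^ classNumber L * (u : 𝓞 L) : 𝓞 L) : L) = j ((π ^ n * z : 𝓞 L) : L) := by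
      rw [hu]
    simp only [map_mul, map_pow] at h3
    have h4 := congrArg norm h3
    rw [norm_mul, norm_pow, norm_mul, norm_pow, norm_unit, h2, mul_one, mul_one] at h4
    exact h4

/-- `PowAway` and multiplicities -/
theorem dvd_mult {p : ℕ} {x : 𝓞 L} (hx0 : x ≠ 0) (h : PowAway p (x : L)) (q : Ideal (𝓞 L))
    [hq : q.IsPrime] (h0 : q ≠ ⊥) (hp : p.Prime) (hqp : (p : 𝓞 L) ∉ q) :
    p ∣ multiplicity q (Ideal.span {x}) := by
  -- the prime below `q`
  obtain ⟨l, hl, hlq⟩ : ∃ l : ℕ, l.Prime ∧ (l : 𝓞 L) ∈ q := by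
    have h1 : ((Ideal.absNorm q : ℕ) : 𝓞 L) ∈ q := Ideal.absNorm_mem q
    have h2 : Ideal.absNorm q ≠ 0 := by
      rw [Ne, Ideal.absNorm_eq_zero_iff]
      exact h0
    have key : ∀ n : ℕ, n ≠ 0 → ((n : ℕ) : 𝓞 L) ∈ q → ∃ l : ℕ, l.Prime ∧ (l : 𝓞 L) ∈ q := by
      intro n
      induction n using Nat.recOnMul with
      | zero => intro h; exact absurd rfl h
      | one =>
        intro _ h
        exact absurd ((Ideal.eq_top_iff_one q).2 (by simpa using h)) hq.ne_top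
      | prime p hp => intro _ h; exact ⟨p, hp, h⟩
      | mul a b ha hb =>
        intro hab h
        rw [Nat.cast_mul] at h
        rcases hq.mem_or_mem h with h | h
        · exact ha (left_ne_zero_of_mul hab) h
        · exact hb (right_ne_zero_of_mul hab) h
    exact key _ h2 h1
  have : Fact l.Prime := ⟨hl⟩
  have hlp : l ≠ p := by
    rintro rfl
    exact hqp hlq
  obtain ⟨j, hj⟩ := exists_emb q h0 hlq
  obtain ⟨r, hr0, hr1, hr⟩ := exists_unif q h0 j hj
  obtain ⟨b, hb⟩ := h l hlp j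
  have hx0' : j (x : L) ≠ 0 := by
    rw [Ne, map_eq_zero]
    exact_mod_cast hx0
  have hb0 : b ≠ 0 := by
    rintro rfl
    rw [map_zero, norm_zero, zero_pow hp.ne_zero, norm_eq_zero] at hb
    exact hx0' hb
  obtain ⟨b₁, b₂, hb₂, rfl⟩ := IsFractionRing.div_surjective (A := 𝓞 L) b
  have hb₂' : b₂ ≠ 0 := nonZeroDivisors.ne_zero hb₂
  have hb₁' : b₁ ≠ 0 := by
    rintro rfl
    simp at hb0
  have e1 := hr x hx0
  have e2 := hr b₁ hb₁'
  have e3 := hr b₂ hb₂'
  set n := multiplicity q (Ideal.span {x})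
  set n₁ := multiplicity q (Ideal.span {b₁})
  set n₂ := multiplicity q (Ideal.span {b₂})
  have e4 : r ^ n * (r ^ n₂) ^ p = (r ^ n₁) ^ p := by
    rw [← e1, ← e2, ← e3, hb, map_div₀, norm_div]
    have : ‖j ((b₂ : 𝓞 L) : L)‖ ≠ 0 := by
      rw [norm_ne_zero_iff, Ne, map_eq_zero]
      exact_mod_cast hb₂'
    change ((‖j ((b₁ : 𝓞 L) : L)‖ / ‖j ((b₂ : 𝓞 L) : L)‖) ^ p) ^ classNumber L *
      (‖j ((b₂ : 𝓞 L) : L)‖ ^ classNumber L) ^ p = (‖j ((b₁ : 𝓞 L) : L)‖ ^ classNumber L) ^ p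
    rw [← pow_mul, mul_comm p, pow_mul, div_pow, ← mul_pow, div_mul_cancel₀]
    exact pow_ne_zero _ this
  rw [← pow_mul, ← pow_mul, ← pow_add] at e4
  have e5 : n + n₂ * p = n₁ * p := pow_right_injective₀ hr0 hr1.ne e4
  have e6 : n = (n₁ - n₂) * p := by
    have : n = n₁ * p - n₂ * p := by omega
    rw [this, Nat.sub_mul]
  rw [e6]
  exact Dvd.intro_left _ rfl

/-- splitting off the part away from `p` -/
theorem split_ideal {p : ℕ} (I : Ideal (𝓞 L)) (hI : I ≠ ⊥)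
    (h : ∀ q : Ideal (𝓞 L), q.IsPrime → q ≠ ⊥ → (p : 𝓞 L) ∉ q → p ∣ multiplicity q I) :
    ∃ B C : Ideal (𝓞 L), I = B ^ p * C ∧
      ∀ q : Ideal (𝓞 L), q.IsPrime → C ≤ q → (p : 𝓞 L) ∈ q := by
  classical
  set M := normalizedFactors I with hM
  have hMp : ∀ q ∈ M, Prime q := fun q hq => prime_of_normalized_factor q hq
  set M₁ := M.filter (fun q => (p : 𝓞 L) ∉ q) with hM₁
  set M₂ := M.filter (fun q => ¬ (p : 𝓞 L) ∉ q) with hM₂
  have hprod : I = M₁.prod * M₂.prod := by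
    rw [← Multiset.prod_add, Multiset.filter_add_not, hM]
    have := prod_normalizedFactors hI
    exact (associated_iff_eq.1 this).symm
  set N : Multiset (Ideal (𝓞 L)) := ∑ q ∈ M₁.toFinset, (M₁.count q / p) • {q} with hN
  have hN1 : M₁ = p • N := by
    rw [hN, Finset.smul_sum]
    conv_lhs => rw [← Multiset.toFinset_sum_count_nsmul_eq M₁]
    refine Finset.sum_congr rfl fun q hq => ?_
    rw [Multiset.mem_toFinset] at hq
    have h1 : q ∈ M := Multiset.mem_of_mem_filter hq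
    have h2 : (p : 𝓞 L) ∉ q := (Multiset.mem_filter.1 hq).2
    have hqp := hMp q h1
    have h3 := h q (Ideal.isPrime_of_prime hqp) hqp.ne_zero h2
    have h4 : M₁.count q = multiplicity q I := by
      rw [hM₁, Multiset.count_filter_of_pos (p := fun q => (p : 𝓞 L) ∉ q) h2, hM,
        multiplicity_eq_count_normalizedFactors hqp.irreducible hI, normalize_eq]
    rw [smul_smul, h4, Nat.mul_div_cancel' h3]
  refine ⟨N.prod, M₂.prod, ?_, ?_⟩
  · rw [← Multiset.prod_nsmul, ← hN1]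
    exact hprod
  · intro q hq hle
    have h1 : ∃ r ∈ M₂, r ≤ q := (Ideal.IsPrime.multiset_prod_le hq).1 hle
    obtain ⟨r, hr, hrq⟩ := h1
    have h2 := (Multiset.mem_filter.1 hr).2
    push Not at h2
    exact hrq h2

/-- `w` is a unit away from `p` -/
def SU (p : ℕ) {K : Type*} [Field K] (w : K) : Prop :=
  ∀ (l : ℕ) [Fact l.Prime], l ≠ p → ∀ j : K →+* PadicAlgCl l, ‖j w‖ = 1

theorem norm_nat_ne {l p : ℕ} [hl : Fact l.Prime] (hp : p.Prime) (h : l ≠ p) :
    ‖(p : PadicAlgCl l)‖ = 1 := by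
  have h1 : (p : PadicAlgCl l) = algebraMap ℚ_[l] (PadicAlgCl l) (p : ℚ_[l]) := by simp
  rw [h1]
  refine (PadicAlgCl.norm_extends l (p : ℚ_[l])).trans ?_
  exact Padic.norm_natCast_eq_one_iff.2 ((Nat.coprime_primes hl.out hp).2 h)

/-- from `PowAway` to `S`-units, integral case -/
theorem exists_sunit_int {p : ℕ} (hp : p.Prime) {x : 𝓞 L} (hx0 : x ≠ 0)
    (h : PowAway p (x : L)) : ∃ y w : L, y ≠ 0 ∧ w ≠ 0 ∧ SU p w ∧
      (x : L) ^ classNumber L = y ^ p * w := by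
  have hxs : Ideal.span {x} ≠ ⊥ := by
    rw [Ne, Ideal.span_singleton_eq_bot]
    exact hx0
  obtain ⟨B, C, hBC, hC⟩ := split_ideal (p := p) (Ideal.span {x}) hxs
    (fun q hq h0 hqp => dvd_mult hx0 h q h0 hp hqp)
  have hB0 : B ≠ ⊥ := by
    rintro rfl
    rw [Ideal.bot_pow hp.ne_zero, Ideal.bot_mul] at hBC
    exact hxs hBC
  have hC0 : C ≠ ⊥ := by
    rintro rfl
    rw [Ideal.mul_bot] at hBC
    exact hxs hBC
  obtain ⟨y, hy⟩ := pow_class B hB0
  obtain ⟨w, hw⟩ := pow_class C hC0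
  have h1 : Ideal.span {y ^ p * w} = Ideal.span {x ^ classNumber L} := by
    rw [← Ideal.span_singleton_pow, hBC, mul_pow, ← pow_mul, mul_comm p, pow_mul, hy, hw,
      Ideal.span_singleton_pow, Ideal.span_singleton_mul_span_singleton]
  rw [Ideal.span_singleton_eq_span_singleton] at h1
  obtain ⟨u, hu⟩ := h1
  have hx' : (x : L) ^ classNumber L ≠ 0 := pow_ne_zero _ (by exact_mod_cast hx0)
  have e : (x : L) ^ classNumber L = (y : L) ^ p * ((w : L) * ((u : 𝓞 L) : L)) := by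
    have := congrArg (algebraMap (𝓞 L) L) hu
    simp only [map_mul, map_pow] at this
    rw [← mul_assoc]
    exact this.symm
  have hy0 : (y : L) ≠ 0 := by
    rintro h0
    rw [e, h0, zero_pow hp.ne_zero, zero_mul] at hx'
    exact hx' rfl
  have hw0 : (w : L) * ((u : 𝓞 L) : L) ≠ 0 := by
    intro h0
    rw [e, h0, mul_zero] at hx'
    exact hx' rfl
  refine ⟨y, (w : L) * ((u : 𝓞 L) : L), hy0, hw0, ?_, e⟩
  intro l _ hlp j
  rw [map_mul, norm_mul, norm_unit, mul_one]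
  refine le_antisymm (norm_emb_le j w) ?_
  by_contra hcon
  rw [not_le] at hcon
  have h2 : w ∈ pr j := hcon
  have h3 : C ≤ pr j := by
    have h4 : C ^ classNumber L ≤ pr j := by
      rw [hw]
      exact (Ideal.span_singleton_le_iff_mem _).2 h2
    exact Ideal.IsPrime.le_of_pow_le h4
  have h5 := hC (pr j) (pr_prime j) h3
  rw [mem_pr] at h5
  have h6 : ‖j ((p : 𝓞 L) : L)‖ = 1 := by
    have : j ((p : 𝓞 L) : L) = (p : PadicAlgCl l) := by simp
    rw [this]
    exact norm_nat_ne hp hlp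
  linarith

/-- from `PowAway` to `S`-units -/
theorem exists_sunit {p : ℕ} (hp : p.Prime) {x : L} (hx0 : x ≠ 0)
    (h : PowAway p x) : ∃ y w : L, y ≠ 0 ∧ w ≠ 0 ∧ SU p w ∧
      x ^ classNumber L = y ^ p * w := by
  obtain ⟨a, b, hb, rfl⟩ := IsFractionRing.div_surjective (A := 𝓞 L) x
  have hb' : b ≠ 0 := nonZeroDivisors.ne_zero hb
  have hbL : ((b : 𝓞 L) : L) ≠ 0 := by exact_mod_cast hb'
  have ha' : a ≠ 0 := by
    rintro rfl
    simp at hx0
  set x₁ : 𝓞 L := a * b ^ (p - 1) with hx₁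
  have hx₁0 : x₁ ≠ 0 := mul_ne_zero ha' (pow_ne_zero _ hb')
  have e1 : ((x₁ : 𝓞 L) : L) = (algebraMap (𝓞 L) L a / algebraMap (𝓞 L) L b) *
      (algebraMap (𝓞 L) L b) ^ p := by
    change algebraMap (𝓞 L) L (a * b ^ (p - 1)) = _
    rw [map_mul, map_pow]
    obtain ⟨k, hk⟩ : ∃ k, p = k + 1 := ⟨p - 1, by have := hp.one_lt; omega⟩
    rw [hk, Nat.add_sub_cancel, pow_succ]
    have : (algebraMap (𝓞 L) L) b ≠ 0 := hbL
    field_simp
  have h1 : PowAway p ((x₁ : 𝓞 L) : L) := by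
    intro l _ hlp j
    obtain ⟨c, hc⟩ := h l hlp j
    refine ⟨c * algebraMap (𝓞 L) L b, ?_⟩
    rw [e1, map_mul, norm_mul, hc, map_pow, norm_pow, map_mul, norm_mul, mul_pow]
  obtain ⟨y, w, hy, hw, hsu, he⟩ := exists_sunit_int hp hx₁0 h1
  have hbL' : (algebraMap (𝓞 L) L) b ≠ 0 := hbL
  refine ⟨y / (algebraMap (𝓞 L) L b) ^ classNumber L, w, div_ne_zero hy (pow_ne_zero _ hbL'), hw,
    hsu, ?_⟩
  rw [e1, mul_pow] at he
  rw [div_pow y, ← pow_mul, mul_comm (classNumber L) p, pow_mul, div_mul_eq_mul_div, ← he,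
    mul_div_assoc, div_self (pow_ne_zero _ (pow_ne_zero _ hbL')), mul_one]

end RT
end BKGen
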