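import Pool.Agent.Lib.MP_7c08ba_nt.Gen.RT.Emb

/-!
The field `K = ℚ(s, t)`, `s² = -d`, `t² = -3`: coordinates, automorphisms, quadratic subfields.
-/

namespace BKGen
namespace RT

open NumberField IntermediateField Polynomial

/-- elements of `k(r)`, `r² = m` -/
theorem mem_adjoin_sqrt {k E : Type*} [Field k] [Field E] [Algebra k E] {r : E} {m : k}
    (hr : r ^ 2 = algebraMap k E m) {x : E} (hx : x ∈ k⟮r⟯) :
    ∃ A B : k, x = algebraMap k E A + algebraMap k E B * r := by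
  set Q : k[X] := X ^ 2 - C m with hQ
  have hQm : Q.Monic := monic_X_pow_sub_C m two_ne_zero
  have hQr : aeval r Q = 0 := by simp [hQ, hr]
  have hint : IsIntegral k r := ⟨Q, hQm, by simpa [aeval_def] using hQr⟩
  have h1 : x ∈ Algebra.adjoin k {r} := by
    rw [← IntermediateField.adjoin_simple_toSubalgebra_of_isAlgebraic hint.isAlgebraic]
    exact hx
  rw [Algebra.adjoin_singleton_eq_range_aeval] at h1
  obtain ⟨P, rfl⟩ := h1
  have h2 : aeval r (P %ₘ Q) = aeval r P := aeval_modByMonic_eq_self_of_root hQr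
  have h3 : (P %ₘ Q).natDegree ≤ 1 := by
    have h4 : Q.natDegree = 2 := natDegree_X_pow_sub_C
    have h5 : (P %ₘ Q).natDegree < Q.natDegree := by
      refine natDegree_modByMonic_lt P hQm ?_
      intro h
      rw [h] at h4
      simp at h4
    omega
  obtain ⟨a, b, hab⟩ := exists_eq_X_add_C_of_natDegree_le_one h3
  refine ⟨b, a, ?_⟩
  change aeval r P = _
  rw [← h2, hab]
  simp
  ring

theorem mem_adjoin_of {k E : Type*} [Field k] [Field E] [Algebra k E] (r : E) (A B : k) :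
    algebraMap k E A + algebraMap k E B * r ∈ k⟮r⟯ :=
  add_mem (IntermediateField.algebraMap_mem _ _)
    (mul_mem (IntermediateField.algebraMap_mem _ _) (mem_adjoin_simple_self k r))

/-- `3 X² = d Y²` has no rational solution with `Y ≠ 0` if `3` does not divide `d` -/
theorem three_sq {d : ℕ} (hd : ¬ 3 ∣ d) {X Y : ℚ} (h : 3 * X ^ 2 = d * Y ^ 2) : Y = 0 := by
  by_contra hY
  have hd0 : (d : ℚ) ≠ 0 := by
    intro h0
    rw [Nat.cast_eq_zero] at h0
    rw [h0] at hd
    exact hd (dvd_zero 3)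
  have hX : X ≠ 0 := by
    rintro rfl
    have : (d : ℚ) * Y ^ 2 = 0 := by rw [← h]; ring
    rcases mul_eq_zero.1 this with h1 | h1
    · exact hd0 h1
    · exact hY (pow_eq_zero_iff two_ne_zero |>.1 h1)
  have : Fact (Nat.Prime 3) := ⟨Nat.prime_three⟩
  have h1 := congrArg (padicValRat 3) h
  rw [padicValRat.mul (by norm_num) (pow_ne_zero _ hX), padicValRat.mul hd0 (pow_ne_zero _ hY),
    padicValRat.pow, padicValRat.pow] at h1
  have h2 : padicValRat 3 (3 : ℚ) = 1 := by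
    have := padicValRat.self (p := 3) (by norm_num)
    simpa using this
  have h3 : padicValRat 3 (d : ℚ) = 0 := by
    rw [padicValRat.of_nat, padicValNat.eq_zero_of_not_dvd hd]
    rfl
  rw [h2, h3] at h1
  push_cast at h1
  omega

/-- the field `ℚ(s, t)` -/
structure Biq (K : Type*) [Field K] [NumberField K] (d : ℕ) (s t : K) : Prop where
  hd : d % 3 = 2
  s2 : s ^ 2 = -(d : K)
  t2 : t ^ 2 = -3
  deg : Module.finrank ℚ K = 4

variable {K : Type*} [Field K] [NumberField K] {d : ℕ} {s t : K}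

/-- an element of `K` by its coordinates -/
noncomputable def cf (s t : K) (a b c e : ℚ) : K := (a : K) + b * s + c * t + e * (s * t)

theorem Biq.three (h : Biq K d s t) : ¬ 3 ∣ d := by
  have := h.hd
  omega

theorem Biq.dpos (h : Biq K d s t) : 0 < d := by
  have := h.hd
  omega

theorem Biq.s_not_rat (h : Biq K d s t) (q : ℚ) : (q : K) ≠ s := by
  intro hq
  have h1 := h.s2
  rw [← hq] at h1
  have h2 : q ^ 2 = -(d : ℚ) := by exact_mod_cast h1
  have h3 : (0 : ℚ) < d := by exact_mod_cast h.dpos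
  nlinarith [sq_nonneg q]

theorem Biq.lin (h : Biq K d s t) {P Q : ℚ} (h0 : (P : K) + Q * s = 0) : P = 0 ∧ Q = 0 := by
  by_cases hQ : Q = 0
  · subst hQ
    simp only [Rat.cast_zero, zero_mul, add_zero] at h0
    exact ⟨by exact_mod_cast h0, rfl⟩
  · exfalso
    apply h.s_not_rat (-P / Q)
    have hQ' : (Q : K) ≠ 0 := by exact_mod_cast hQ
    push_cast
    rw [div_eq_iff hQ']
    linear_combination -h0

theorem Biq.ind (h : Biq K d s t) {a b c e : ℚ} (h0 : cf s t a b c e = 0) :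
    a = 0 ∧ b = 0 ∧ c = 0 ∧ e = 0 := by
  unfold cf at h0
  have h1 : ((a ^ 2 - d * b ^ 2 + 3 * c ^ 2 - 3 * d * e ^ 2 : ℚ) : K) +
      ((2 * (a * b + 3 * c * e) : ℚ) : K) * s = 0 := by
    push_cast
    have hs := h.s2
    have ht := h.t2
    linear_combination ((a : K) + b * s - (c * t + e * (s * t))) * h0 +
      (-(b : K) ^ 2 - 3 * (e : K) ^ 2) * hs + ((c : K) ^ 2 + 2 * c * e * s + (e : K) ^ 2 * s ^ 2) * ht
  obtain ⟨h2, h3⟩ := h.lin h1
  have h4 : 3 * (b * c - a * e) ^ 2 = d * (b ^ 2 + 3 * e ^ 2) ^ 2 := by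
    have h5 : a ^ 2 + 3 * c ^ 2 = d * (b ^ 2 + 3 * e ^ 2) := by linarith
    have h6 : a * b + 3 * c * e = 0 := by linarith
    have h7 : (a ^ 2 + 3 * c ^ 2) * (b ^ 2 + 3 * e ^ 2) =
        (a * b + 3 * c * e) ^ 2 + 3 * (b * c - a * e) ^ 2 := by ring
    rw [h6, h5] at h7
    linarith
  have h5 := three_sq h.three h4
  have hb : b = 0 := by nlinarith [sq_nonneg b, sq_nonneg e]
  have he : e = 0 := by nlinarith [sq_nonneg b, sq_nonneg e]
  subst hb he
  have ha : a = 0 := by nlinarith [sq_nonneg a, sq_nonneg c]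
  have hc : c = 0 := by nlinarith [sq_nonneg a, sq_nonneg c]
  exact ⟨ha, rfl, hc, rfl⟩

theorem Biq.inj (h : Biq K d s t) {a b c e a' b' c' e' : ℚ}
    (h0 : cf s t a b c e = cf s t a' b' c' e') : a = a' ∧ b = b' ∧ c = c' ∧ e = e' := by
  have h1 : cf s t (a - a') (b - b') (c - c') (e - e') = 0 := by
    unfold cf at h0 ⊢
    push_cast
    linear_combination h0
  obtain ⟨h2, h3, h4, h5⟩ := h.ind h1
  exact ⟨by linarith, by linarith, by linarith, by linarith⟩

theorem Biq.li (h : Biq K d s t) : LinearIndependent ℚ ![(1 : K), s, t, s * t] := by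
  rw [Fintype.linearIndependent_iff]
  intro g hg
  rw [Fin.sum_univ_four] at hg
  simp only [Matrix.cons_val_zero, Matrix.cons_val_one, Matrix.cons_val_two,
    Matrix.cons_val_three, Matrix.head_cons, Matrix.tail_cons] at hg
  have h1 : cf s t (g 0) (g 1) (g 2) (g 3) = 0 := by
    unfold cf
    rw [← hg]
    simp only [Algebra.smul_def, mul_one]
    rfl
  obtain ⟨h2, h3, h4, h5⟩ := h.ind h1
  intro i
  fin_cases i
  · exact h2
  · exact h3
  · exact h4
  · exact h5

/-- the basis -/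
noncomputable def Biq.bas (h : Biq K d s t) : Module.Basis (Fin 4) ℚ K :=
  basisOfLinearIndependentOfCardEqFinrank h.li (by rw [h.deg]; rfl)

theorem Biq.bas_coe (h : Biq K d s t) : ⇑h.bas = ![(1 : K), s, t, s * t] :=
  coe_basisOfLinearIndependentOfCardEqFinrank _ _

theorem Biq.span (h : Biq K d s t) (x : K) : ∃ a b c e : ℚ, x = cf s t a b c e := by
  refine ⟨h.bas.repr x 0, h.bas.repr x 1, h.bas.repr x 2, h.bas.repr x 3, ?_⟩
  conv_lhs => rw [← h.bas.sum_repr x]
  rw [Fin.sum_univ_four, h.bas_coe]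
  simp only [Matrix.cons_val_zero, Matrix.cons_val_one, Matrix.cons_val_two,
    Matrix.cons_val_three, Matrix.head_cons, Matrix.tail_cons]
  unfold cf
  simp only [Algebra.smul_def, mul_one]
  rfl

/-- the automorphisms -/
theorem Biq.exists_aut (h : Biq K d s t) (ε₁ ε₂ : ℚ) (h1 : ε₁ ^ 2 = 1) (h2 : ε₂ ^ 2 = 1) :
    ∃ f : K →+* K, f s = ε₁ * s ∧ f t = ε₂ * t := by
  set F : K →ₗ[ℚ] K := h.bas.constr ℚ ![(1 : K), ε₁ * s, ε₂ * t, (ε₁ * ε₂ : ℚ) * (s * t)] with hF
  have hF0 : ∀ i : Fin 4, F (h.bas i) =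
      (![(1 : K), ε₁ * s, ε₂ * t, (ε₁ * ε₂ : ℚ) * (s * t)] : Fin 4 → K) i := fun i => by
    rw [hF, Module.Basis.constr_basis]
  have b0 : F 1 = 1 := by simpa [h.bas_coe] using hF0 0
  have b1 : F s = ε₁ * s := by simpa [h.bas_coe] using hF0 1
  have b2 : F t = ε₂ * t := by simpa [h.bas_coe] using hF0 2
  have b3 : F (s * t) = (ε₁ * ε₂ : ℚ) * (s * t) := by simpa [h.bas_coe] using hF0 3
  have sm : ∀ (q : ℚ) (x : K), F ((q : K) * x) = (q : K) * F x := by
    intro q x
    have h3 : (q : K) * x = q • x := by rw [Algebra.smul_def]; rfl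
    have h4 : (q : K) * F x = q • F x := by rw [Algebra.smul_def]; rfl
    rw [h3, h4, map_smul]
  have hmk : ∀ a b c e : ℚ, F (cf s t a b c e) = cf s t a (ε₁ * b) (ε₂ * c) (ε₁ * ε₂ * e) := by
    intro a b c e
    unfold cf
    have h3 : F (a : K) = a := by
      have := sm a 1
      rw [mul_one, b0, mul_one] at this
      exact this
    rw [map_add, map_add, map_add, h3, sm, sm, sm, b1, b2, b3]
    push_cast
    ring
  have hs := h.s2
  have ht := h.t2
  have mm : ∀ a b c e a' b' c' e' : ℚ, cf s t a b c e * cf s t a' b' c' e' =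
      cf s t (a * a' - d * b * b' - 3 * c * c' + 3 * d * e * e')
        (a * b' + b * a' - 3 * c * e' - 3 * e * c')
        (a * c' + c * a' - d * b * e' - d * e * b')
        (a * e' + e * a' + b * c' + c * b') := by
    intro a b c e a' b' c' e'
    unfold cf
    push_cast
    linear_combination ((b : K) * b' + b * e' * t + e * b' * t + e * e' * t ^ 2) * hs +
      ((c : K) * c' + c * e' * s + e * c' * s - d * e * e') * ht
  refine ⟨⟨⟨⟨F, b0⟩, ?_⟩, map_zero F, map_add F⟩, b1, b2⟩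
  intro x y
  obtain ⟨a, b, c, e, rfl⟩ := h.span x
  obtain ⟨a', b', c', e', rfl⟩ := h.span y
  change F (_ * _) = F _ * F _
  rw [mm, hmk, hmk, hmk, mm]
  congr 1
  · linear_combination (-d * b * b' + 3 * d * e * e' * ε₂ ^ 2) * (-h1) +
      (-3 * c * c' + 3 * d * e * e') * (-h2)
  · linear_combination (-3 * ε₁ * (c * e' + e * c')) * (-h2)
  · linear_combination (-d * ε₂ * (b * e' + e * b')) * (-h1)
  · ring

theorem aut_mk (f : K →+* K) {ε₁ ε₂ : ℚ} (h1 : f s = ε₁ * s) (h2 : f t = ε₂ * t)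
    (a b c e : ℚ) : f (cf s t a b c e) = cf s t a (ε₁ * b) (ε₂ * c) (ε₁ * ε₂ * e) := by
  unfold cf
  simp only [map_add, map_mul, map_ratCast, h1, h2]
  push_cast
  ring

/-! ### `PowAway` -/

omit [NumberField K] in
theorem PowAway.mul {p : ℕ} {x y : K} (hx : PowAway p x) (hy : PowAway p y) :
    PowAway p (x * y) := by
  intro l _ hlp j
  obtain ⟨b, hb⟩ := hx l hlp j
  obtain ⟨c, hc⟩ := hy l hlp j
  exact ⟨b * c, by rw [map_mul, norm_mul, hb, hc, map_mul, norm_mul, mul_pow]⟩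

omit [NumberField K] in
theorem PowAway.inv {p : ℕ} {x : K} (hx : PowAway p x) : PowAway p x⁻¹ := by
  intro l _ hlp j
  obtain ⟨b, hb⟩ := hx l hlp j
  exact ⟨b⁻¹, by rw [map_inv₀, norm_inv, hb, map_inv₀, norm_inv, inv_pow]⟩

omit [NumberField K] in
theorem PowAway.map {p : ℕ} {x : K} (hx : PowAway p x) (f : K →+* K) : PowAway p (f x) := by
  intro l _ hlp j
  obtain ⟨b, hb⟩ := hx l hlp (j.comp f)
  exact ⟨f b, hb⟩

/-- descent to a subfield of index two -/
theorem PowAway.descend {p : ℕ} (hp : Odd p) (L : IntermediateField ℚ K) (τ : K →+* K)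
    (hτ : ∀ b : K, b + τ b ∈ L ∧ b * τ b ∈ L) {x : K} (hxL : x ∈ L) (hx0 : x ≠ 0)
    (hx : PowAway p x) : PowAway p (⟨x, hxL⟩ : L) := by
  intro l _ hlp jL
  let _ : Algebra L (PadicAlgCl l) := jL.toAlgebra
  set j : K →+* PadicAlgCl l := (IsAlgClosed.lift : K →ₐ[L] PadicAlgCl l).toRingHom with hj
  have hjL : ∀ y : L, j (y : K) = jL y := fun y =>
    (IsAlgClosed.lift : K →ₐ[L] PadicAlgCl l).commutes y
  obtain ⟨b, hb⟩ := hx l hlp j
  obtain ⟨k, rfl⟩ := hp
  have hjx : j x ≠ 0 := by rwa [Ne, map_eq_zero]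
  have hb0 : ‖j b‖ ≠ 0 := by
    intro h0
    rw [h0, zero_pow (by omega), norm_eq_zero] at hb
    exact hjx hb
  have key : ∃ g : L, ‖j b‖ ^ 2 = ‖jL g‖ := by
    obtain ⟨h1, h2⟩ := hτ b
    set u : L := ⟨b + τ b, h1⟩ with hu
    set v : L := ⟨b * τ b, h2⟩ with hv
    have e : j b ^ 2 = jL u * j b - jL v := by
      rw [← hjL, ← hjL, hu, hv]
      simp only [map_add, map_mul]
      ring
    have e2 : ‖j b‖ ^ 2 = ‖jL u * j b - jL v‖ := by rw [← e, norm_pow]
    rcases lt_trichotomy ‖jL u * j b‖ ‖jL v‖ with hlt | heq | hgt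
    · refine ⟨v, ?_⟩
      rw [e2, sub_eq_add_neg, IsUltrametricDist.norm_add_eq_max_of_norm_ne_norm
        (by rw [norm_neg]; exact hlt.ne), norm_neg, max_eq_right hlt.le]
    · by_cases hu0 : jL u = 0
      · rw [hu0, zero_mul, norm_zero] at heq
        rw [hu0, zero_mul, zero_sub, norm_neg, ← heq] at e2
        exact absurd (pow_eq_zero_iff two_ne_zero |>.1 e2) hb0
      · refine ⟨(v / u) ^ 2, ?_⟩
        rw [map_pow, map_div₀, norm_pow, norm_div, ← heq, norm_mul, mul_div_assoc, mul_comm,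
          div_mul_cancel₀]
        rwa [norm_ne_zero_iff]
    · refine ⟨u ^ 2, ?_⟩
      have e3 : ‖j b‖ ^ 2 = ‖jL u‖ * ‖j b‖ := by
        rw [e2, sub_eq_add_neg, IsUltrametricDist.norm_add_eq_max_of_norm_ne_norm
          (by rw [norm_neg]; exact hgt.ne'), norm_neg, max_eq_left hgt.le, norm_mul]
      have e4 : ‖j b‖ = ‖jL u‖ := by
        rw [sq] at e3
        exact mul_right_cancel₀ hb0 e3
      rw [map_pow, norm_pow, ← e4]
  obtain ⟨g, hg⟩ := key
  refine ⟨⟨x, hxL⟩ / g ^ k, ?_⟩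
  have h3 : ‖jL ⟨x, hxL⟩‖ = ‖j b‖ ^ (2 * k + 1) := by rw [← hb, ← hjL]
  rw [h3]
  congr 1
  rw [map_div₀, norm_div, h3, map_pow, norm_pow, ← hg, ← pow_mul, pow_succ, mul_comm,
    mul_div_assoc, div_self (pow_ne_zero _ hb0), mul_one]

theorem SU.lift {p : ℕ} {L : IntermediateField ℚ K} {w : L} (hw : SU p w) : SU p (w : K) := by
  intro l _ hlp j
  exact hw l hlp (j.comp (algebraMap L K))

/-- from `PowAway` to `S`-units in a subfield -/
theorem sunit_sub (L : IntermediateField ℚ K) (τ : K →+* K)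
    (hτ : ∀ b : K, b + τ b ∈ L ∧ b * τ b ∈ L) {x : K} (hxL : x ∈ L) (hx0 : x ≠ 0)
    (hx : PowAway 3 x) : ∃ y w : K, y ∈ L ∧ w ∈ L ∧ y ≠ 0 ∧ w ≠ 0 ∧ SU 3 w ∧
      x ^ classNumber L = y ^ 3 * w := by
  have h1 := PowAway.descend (p := 3) (by decide) L τ hτ hxL hx0 hx
  have h2 : (⟨x, hxL⟩ : L) ≠ 0 := by
    intro h0
    exact hx0 (congrArg Subtype.val h0)
  obtain ⟨y, w, hy, hw, hs, he⟩ := exists_sunit Nat.prime_three h2 h1
  refine ⟨y, w, y.2, w.2, ?_, ?_, hs.lift, ?_⟩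
  · exact_mod_cast hy
  · exact_mod_cast hw
  · have := congrArg Subtype.val he
    simpa using this

end RT
end BKGen
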