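import Pool.Agent.Lib.MP_7c08ba_nt.Gen.RT.Quad

/-!
The completion of `K = ℚ(s, t)` at a place above `3`: it is `ℚ_3(√-3)`; cubes.
-/

namespace BKGen
namespace RT

open NumberField IntermediateField

instance fact3 : Fact (Nat.Prime 3) := ⟨Nat.prime_three⟩

theorem z3_iff (x : ℤ_[3]) : (3 : ℤ_[3]) ∣ x ↔ PadicInt.toZMod x = 0 := by
  rw [← RingHom.mem_ker, PadicInt.ker_toZMod, PadicInt.maximalIdeal_eq_span_p,
    Ideal.mem_span_singleton]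
  norm_num

theorem z3_dvd (A B : ℤ_[3]) (hA : ¬ (3 : ℤ_[3]) ∣ A) : (3 : ℤ_[3]) ∣ B * (A ^ 2 - B ^ 2) := by
  rw [z3_iff] at hA ⊢
  simp only [map_mul, map_sub, map_pow]
  revert hA
  generalize (PadicInt.toZMod A : ZMod 3) = a
  generalize (PadicInt.toZMod B : ZMod 3) = b
  revert a b
  decide

theorem z3_six (g : ℤ_[3]) (hg : ¬ (3 : ℤ_[3]) ∣ g) : (9 : ℤ_[3]) ∣ g ^ 6 - 1 := by
  have h1 : (3 : ℤ_[3]) ∣ g ^ 2 - 1 := by
    rw [z3_iff] at hg ⊢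
    simp only [map_sub, map_pow, map_one]
    revert hg
    generalize (PadicInt.toZMod g : ZMod 3) = a
    revert a
    decide
  obtain ⟨w, hw⟩ := h1
  refine ⟨w + 3 * w ^ 2 + 3 * w ^ 3, ?_⟩
  have h2 : g ^ 2 = 1 + 3 * w := by linear_combination hw
  calc g ^ 6 - 1 = (g ^ 2) ^ 3 - 1 := by ring
    _ = _ := by rw [h2]; ring

theorem norm3 : ‖(3 : ℚ_[3])‖ = 1 / 3 := by
  have := Padic.norm_p (p := 3)
  simpa using this

theorem norm_dvd (x : ℤ_[3]) : (3 : ℤ_[3]) ∣ x ↔ ‖(x : ℚ_[3])‖ < 1 := by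
  have := PadicInt.norm_lt_one_iff_dvd (p := 3) x
  rw [PadicInt.norm_def] at this
  rw [this]
  norm_num

theorem norm_lt_one3 {x : ℚ_[3]} (h : ‖x‖ < 1) : ‖x‖ ≤ 1 / 3 := by
  have h1 := (Padic.norm_lt_pow_iff_norm_le_pow_sub_one (p := 3) x 0).1 (by simpa using h)
  norm_num at h1 ⊢
  exact h1

theorem norm_lt_three {x : ℚ_[3]} (h : ‖x‖ < 3) : ‖x‖ ≤ 1 := by
  have h1 := (Padic.norm_le_pow_iff_norm_lt_pow_add_one (p := 3) x 0).2 (by simpa using h)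
  simpa using h1

theorem local_b {A B : ℚ_[3]} (hA : ‖A‖ = 1) (hB : ‖B‖ ≤ 1) :
    ‖3 * A ^ 2 * B - 3 * B ^ 3‖ ≤ 1 / 9 := by
  have h1 := z3_dvd ⟨A, hA.le⟩ ⟨B, hB⟩ (by
    rw [norm_dvd]
    change ¬ ‖A‖ < 1
    rw [hA]
    norm_num)
  rw [norm_dvd] at h1
  have h2 : ‖B * (A ^ 2 - B ^ 2)‖ < 1 := h1
  have h3 := norm_lt_one3 h2
  have h4 : 3 * A ^ 2 * B - 3 * B ^ 3 = 3 * (B * (A ^ 2 - B ^ 2)) := by ring
  rw [h4, norm_mul, norm3]
  linarith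

theorem local_a {g X : ℚ_[3]} (hX : ‖X‖ = 1) (h : g ^ 3 = X) : ‖X ^ 2 - 1‖ ≤ 1 / 9 := by
  have hg : ‖g‖ = 1 := by
    have h1 : ‖g‖ ^ 3 = 1 := by rw [← norm_pow, h, hX]
    exact (pow_eq_one_iff_of_nonneg (norm_nonneg _) (by norm_num)).1 h1
  obtain ⟨w, hw⟩ := z3_six ⟨g, hg.le⟩ (by
    rw [norm_dvd]
    change ¬ ‖g‖ < 1
    rw [hg]
    norm_num)
  have h2 : X ^ 2 - 1 = 9 * (w : ℚ_[3]) := by
    have h3 := congrArg (fun x : ℤ_[3] => (x : ℚ_[3])) hw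
    simp only [PadicInt.coe_sub, PadicInt.coe_pow, PadicInt.coe_mul, PadicInt.coe_one] at h3
    rw [← h, ← pow_mul]
    change g ^ 6 - 1 = _
    rw [h3]
    rfl
  rw [h2, norm_mul]
  have h4 : ‖(9 : ℚ_[3])‖ = 1 / 9 := by
    have : (9 : ℚ_[3]) = 3 * 3 := by norm_num
    rw [this, norm_mul, norm3]
    norm_num
  have h5 : ‖(w : ℚ_[3])‖ ≤ 1 := w.2
  rw [h4]
  linarith

/-- parity of valuations -/
theorem parity {A B : ℚ_[3]} (h : ‖A‖ ^ 2 = ‖B‖ ^ 2 * (1 / 3)) : A = 0 ∧ B = 0 := by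
  by_cases hB : B = 0
  · subst hB
    rw [norm_zero] at h
    have : ‖A‖ ^ 2 = 0 := by rw [h]; ring
    rw [pow_eq_zero_iff two_ne_zero, norm_eq_zero] at this
    exact ⟨this, rfl⟩
  · exfalso
    have hA : A ≠ 0 := by
      rintro rfl
      rw [norm_zero] at h
      have h1 : ‖B‖ ≠ 0 := by rwa [norm_ne_zero_iff]
      have : ‖B‖ ^ 2 * (1 / 3) ≠ 0 := by positivity
      exact this (by rw [← h]; ring)
    rw [Padic.norm_eq_zpow_neg_valuation hA, Padic.norm_eq_zpow_neg_valuation hB] at h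
    have h1 : (1 / 3 : ℝ) = ((3 : ℕ) : ℝ) ^ (-1 : ℤ) := by norm_num
    rw [h1, ← zpow_natCast, ← zpow_natCast, ← zpow_mul, ← zpow_mul,
      ← zpow_add₀ (by norm_num)] at h
    have h2 := zpow_right_injective₀ (a := ((3 : ℕ) : ℝ)) (by norm_num) (by norm_num) h
    push_cast at h2
    omega

theorem no_sqrt (A : ℚ_[3]) : A ^ 2 ≠ -3 := by
  intro h
  have h1 : ‖A‖ ^ 2 = ‖(1 : ℚ_[3])‖ ^ 2 * (1 / 3) := by
    rw [← norm_pow, h, norm_neg, norm3, norm_one]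
    norm_num
  exact one_ne_zero (parity h1).2

variable {K : Type*} [Field K] [NumberField K] {d : ℕ} {s t : K}

/-- the embedding of `ℚ_3` -/
noncomputable abbrev Q3 : ℚ_[3] →+* PadicAlgCl 3 := algebraMap ℚ_[3] (PadicAlgCl 3)

theorem Q3_norm (x : ℚ_[3]) : ‖Q3 x‖ = ‖x‖ := PadicAlgCl.norm_extends 3 x

omit [NumberField K] in
theorem iota3 (ι : K →+* PadicAlgCl 3) : ι 3 = 3 := map_ofNat ι 3

theorem Q33 : Q3 3 = 3 := map_ofNat _ 3

theorem lam_sq (ι : K →+* PadicAlgCl 3) (h : Biq K d s t) : ι t ^ 2 = -3 := by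
  rw [← map_pow, h.t2, map_neg, iota3]

theorem lam_sq' (ι : K →+* PadicAlgCl 3) (h : Biq K d s t) : ι t ^ 2 = Q3 (-3) := by
  rw [lam_sq ι h, map_neg, Q33]

theorem norm_lam (ι : K →+* PadicAlgCl 3) (h : Biq K d s t) : ‖ι t‖ ^ 2 = 1 / 3 := by
  have h1 := lam_sq' ι h
  rw [← norm_pow, h1, Q3_norm, norm_neg, norm3]

/-- the image of `s` is in `ℚ_3` -/
theorem exists_r (ι : K →+* PadicAlgCl 3) (h : Biq K d s t) :
    ∃ r : ℚ_[3], ι s = Q3 r ∧ r ^ 2 = -(d : ℚ_[3]) ∧ ‖r‖ = 1 := by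
  have hd1 : (3 : ℤ_[3]) ∣ 1 + d := by
    have h1 := h.hd
    obtain ⟨k, hk⟩ : ∃ k, 1 + d = 3 * k := ⟨(1 + d) / 3, by omega⟩
    exact ⟨k, by exact_mod_cast hk⟩
  obtain ⟨z, hz, -⟩ := hensels_lemma (p := 3) (R := ℤ_[3])
    (F := Polynomial.X ^ 2 + Polynomial.C (d : ℤ_[3])) (a := 1) (by
      simp only [map_add, map_pow, Polynomial.aeval_X, Polynomial.aeval_C, one_pow,
        Polynomial.derivative_X_pow, Polynomial.derivative_C,
        add_zero, map_mul]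
      have h1 : ‖(1 + (d : ℤ_[3]) : ℤ_[3])‖ < 1 := by
        rw [PadicInt.norm_lt_one_iff_dvd]
        exact_mod_cast hd1
      have h2 : ‖((2 : ℕ) : ℤ_[3])‖ = 1 := by
        rw [PadicInt.norm_natCast_eq_one_iff]
        decide
      have h3 : ‖(2 : ℤ_[3])‖ = 1 := by exact_mod_cast h2
      simpa [h3] using h1)
  simp only [map_add, map_pow, Polynomial.aeval_X, Polynomial.aeval_C] at hz
  have hz' : ((z : ℤ_[3]) : ℚ_[3]) ^ 2 = -(d : ℚ_[3]) := by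
    have h1 : z ^ 2 = -(d : ℤ_[3]) := by
      have : z ^ 2 + (d : ℤ_[3]) = 0 := by simpa using hz
      linear_combination this
    have h2 := congrArg (fun x : ℤ_[3] => (x : ℚ_[3])) h1
    simpa using h2
  have h1 : (ι s - Q3 z) * (ι s + Q3 z) = 0 := by
    have h2 : ι s ^ 2 = -(d : PadicAlgCl 3) := by
      rw [← map_pow, h.s2]
      simp
    have h3 : (Q3 z) ^ 2 = -(d : PadicAlgCl 3) := by
      rw [← map_pow, hz']
      simp
    linear_combination h2 - h3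
  have hnorm : ∀ r : ℚ_[3], r ^ 2 = -(d : ℚ_[3]) → ‖r‖ = 1 := by
    intro r hr
    have h2 : ‖r‖ ^ 2 = 1 := by
      rw [← norm_pow, hr, norm_neg, Padic.norm_natCast_eq_one_iff]
      exact (Nat.Prime.coprime_iff_not_dvd Nat.prime_three).2 h.three
    exact (pow_eq_one_iff_of_nonneg (norm_nonneg _) (by norm_num)).1 h2
  rcases mul_eq_zero.1 h1 with h2 | h2
  · exact ⟨z, sub_eq_zero.1 h2, hz', hnorm _ hz'⟩
  · refine ⟨-z, ?_, by rw [neg_sq]; exact hz', hnorm _ (by rw [neg_sq]; exact hz')⟩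
    rw [map_neg]
    exact eq_neg_of_add_eq_zero_left h2

/-- linear independence -/
theorem lam_inj (ι : K →+* PadicAlgCl 3) (h : Biq K d s t) {A B A' B' : ℚ_[3]}
    (he : Q3 A + Q3 B * ι t = Q3 A' + Q3 B' * ι t) : A = A' ∧ B = B' := by
  by_cases hB : B = B'
  · subst hB
    exact ⟨(algebraMap ℚ_[3] (PadicAlgCl 3)).injective (add_right_cancel he), rfl⟩
  · exfalso
    have hB' : B' - B ≠ 0 := fun h0 => hB (sub_eq_zero.1 h0).symm
    have h1 : ι t * Q3 (B' - B) = Q3 (A - A') := by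
      rw [map_sub, map_sub]
      linear_combination -he
    have h2 : Q3 ((A - A') / (B' - B)) = ι t := by
      rw [map_div₀, ← h1, mul_div_assoc, div_self, mul_one]
      rwa [Ne, map_eq_zero]
    apply no_sqrt ((A - A') / (B' - B))
    apply (algebraMap ℚ_[3] (PadicAlgCl 3)).injective
    rw [map_pow, h2, lam_sq' ι h]

theorem iota_cf (ι : K →+* PadicAlgCl 3) {r : ℚ_[3]} (hr : ι s = Q3 r) (a b c e : ℚ) :
    ι (cf s t a b c e) = Q3 ((a : ℚ_[3]) + b * r) + Q3 ((c : ℚ_[3]) + e * r) * ι t := by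
  unfold cf
  simp only [map_add, map_mul, map_ratCast, hr]
  ring

/-- elements of the completion -/
theorem mem_comp (ι : K →+* PadicAlgCl 3) (h : Biq K d s t) {x : PadicAlgCl 3}
    (hx : x ∈ comp 3 ι) : ∃ A B : ℚ_[3], x = Q3 A + Q3 B * ι t := by
  obtain ⟨r, hr, -, -⟩ := exists_r ι h
  have h1 : comp 3 ι ≤ ℚ_[3]⟮ι t⟯ := by
    unfold comp
    rw [IntermediateField.adjoin_le_iff]
    rintro _ ⟨y, rfl⟩
    obtain ⟨a, b, c, e, rfl⟩ := h.span y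
    rw [iota_cf ι hr]
    exact mem_adjoin_of _ _ _
  have h2 := lam_sq' ι h
  exact mem_adjoin_sqrt h2 (h1 hx)

/-- coordinates of a local cube root -/
theorem powAt_iff (ι : K →+* PadicAlgCl 3) (h : Biq K d s t) {r : ℚ_[3]} (hr : ι s = Q3 r)
    (a b c e : ℚ) : PowAt 3 ι (cf s t a b c e) ↔ ∃ A B : ℚ_[3],
      A ^ 3 - 9 * A * B ^ 2 = a + b * r ∧ 3 * A ^ 2 * B - 3 * B ^ 3 = c + e * r := by
  have h2 := lam_sq ι h
  have key : ∀ A B : ℚ_[3], (Q3 A + Q3 B * ι t) ^ 3 =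
      Q3 (A ^ 3 - 9 * A * B ^ 2) + Q3 (3 * A ^ 2 * B - 3 * B ^ 3) * ι t := by
    intro A B
    simp only [map_sub, map_mul, map_pow, map_ofNat]
    linear_combination (3 * Q3 A * Q3 B ^ 2 + Q3 B ^ 3 * ι t) * h2
  constructor
  · rintro ⟨β, hβ, he⟩
    obtain ⟨A, B, rfl⟩ := mem_comp ι h hβ
    rw [key, iota_cf ι hr] at he
    obtain ⟨h3, h4⟩ := lam_inj ι h he
    exact ⟨A, B, h3, h4⟩
  · rintro ⟨A, B, h3, h4⟩
    refine ⟨Q3 A + Q3 B * ι t, ?_, ?_⟩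
    · refine add_mem (IntermediateField.algebraMap_mem _ _)
        (mul_mem (IntermediateField.algebraMap_mem _ _) ?_)
      exact IntermediateField.subset_adjoin _ _ ⟨t, rfl⟩
    · rw [key, iota_cf ι hr, h3, h4]

/-- the norm is invariant under `t ↦ -t` -/
theorem norm_sigma (ι : K →+* PadicAlgCl 3) (h : Biq K d s t) (σ : K →+* K) (h1 : σ s = s)
    (h2 : σ t = -t) (x : K) : ‖ι (σ x)‖ = ‖ι x‖ := by
  obtain ⟨r, hr, -, -⟩ := exists_r ι h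
  obtain ⟨a, b, c, e, rfl⟩ := h.span x
  have h3 : σ (cf s t a b c e) = cf s t a b (-c) (-e) := by
    have := aut_mk (s := s) (t := t) σ (ε₁ := 1) (ε₂ := -1) (by simpa using h1)
      (by simpa using h2) a b c e
    simpa using this
  rw [h3, iota_cf ι hr, iota_cf ι hr]
  set A : ℚ_[3] := (a : ℚ_[3]) + b * r
  set B : ℚ_[3] := (c : ℚ_[3]) + e * r with hB
  have h4 : (((-c : ℚ) : ℚ_[3]) + ((-e : ℚ) : ℚ_[3]) * r) = -B := by
    rw [hB]
    push_cast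
    ring
  rw [h4, map_neg, neg_mul]
  have h5 : ‖Q3 B * ι t‖ ^ 2 = ‖B‖ ^ 2 * (1 / 3) := by
    rw [norm_mul, mul_pow, norm_lam ι h, Q3_norm]
  by_cases h6 : ‖Q3 A‖ = ‖Q3 B * ι t‖
  · have h7 : ‖A‖ ^ 2 = ‖B‖ ^ 2 * (1 / 3) := by
      rw [← h5, ← h6, Q3_norm]
    obtain ⟨h8, h9⟩ := parity h7
    rw [h8, h9]
    simp
  · rw [IsUltrametricDist.norm_add_eq_max_of_norm_ne_norm h6,
      IsUltrametricDist.norm_add_eq_max_of_norm_ne_norm (by rwa [norm_neg]), norm_neg]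

/-- the second coordinate of a unit which is a local cube -/
theorem second_coord (ι : K →+* PadicAlgCl 3) (h : Biq K d s t) {r : ℚ_[3]} (hr : ι s = Q3 r)
    {a b c e : ℚ} (h1 : ‖ι (cf s t a b c e)‖ = 1) (h2 : ‖ι (cf s t a b (-c) (-e))‖ = 1)
    (hp : PowAt 3 ι (cf s t a b c e)) : ‖(c : ℚ_[3]) + e * r‖ ≤ 1 / 9 := by
  rw [powAt_iff ι h hr] at hp
  obtain ⟨A, B, h3, h4⟩ := hp
  have ht2 := lam_sq ι h
  have k1 : (Q3 A + Q3 B * ι t) ^ 3 = ι (cf s t a b c e) := by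
    rw [iota_cf ι hr, ← h3, ← h4]
    simp only [map_sub, map_mul, map_pow, map_ofNat]
    linear_combination (3 * Q3 A * Q3 B ^ 2 + Q3 B ^ 3 * ι t) * ht2
  have k2 : (Q3 A - Q3 B * ι t) ^ 3 = ι (cf s t a b (-c) (-e)) := by
    rw [iota_cf ι hr]
    have h5 : (((-c : ℚ) : ℚ_[3]) + ((-e : ℚ) : ℚ_[3]) * r) = -((c : ℚ_[3]) + e * r) := by
      push_cast
      ring
    rw [h5, ← h3, ← h4]
    simp only [map_sub, map_mul, map_pow, map_ofNat, map_neg]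
    linear_combination (3 * Q3 A * Q3 B ^ 2 - Q3 B ^ 3 * ι t) * ht2
  have n1 : ‖Q3 A + Q3 B * ι t‖ = 1 := by
    have : ‖Q3 A + Q3 B * ι t‖ ^ 3 = 1 := by rw [← norm_pow, k1, h1]
    exact (pow_eq_one_iff_of_nonneg (norm_nonneg _) (by norm_num)).1 this
  have n2 : ‖Q3 A - Q3 B * ι t‖ = 1 := by
    have : ‖Q3 A - Q3 B * ι t‖ ^ 3 = 1 := by rw [← norm_pow, k2, h2]
    exact (pow_eq_one_iff_of_nonneg (norm_nonneg _) (by norm_num)).1 this
  have two : ‖(2 : ℚ_[3])‖ = 1 := by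
    have := (Padic.norm_natCast_eq_one_iff (p := 3) (n := 2)).2 (by decide)
    simpa using this
  have nA : ‖A‖ ≤ 1 := by
    have h5 : ‖Q3 (2 * A)‖ ≤ 1 := by
      have h6 : Q3 (2 * A) = (Q3 A + Q3 B * ι t) + (Q3 A - Q3 B * ι t) := by
        rw [map_mul, map_ofNat]
        ring
      rw [h6]
      exact (IsUltrametricDist.norm_add_le_max _ _).trans (by rw [n1, n2]; simp)
    rw [Q3_norm, norm_mul, two, one_mul] at h5
    exact h5
  have nB' : ‖Q3 B * ι t‖ ≤ 1 := by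
    have h5 : ‖Q3 2 * (Q3 B * ι t)‖ ≤ 1 := by
      have h6 : Q3 2 * (Q3 B * ι t) = (Q3 A + Q3 B * ι t) + -(Q3 A - Q3 B * ι t) := by
        rw [map_ofNat]
        ring
      rw [h6]
      exact (IsUltrametricDist.norm_add_le_max _ _).trans (by rw [norm_neg, n1, n2]; simp)
    rw [norm_mul, Q3_norm, two, one_mul] at h5
    exact h5
  have h5 : ‖Q3 B * ι t‖ ^ 2 = ‖B‖ ^ 2 * (1 / 3) := by
    rw [norm_mul, mul_pow, norm_lam ι h, Q3_norm]
  have nB : ‖B‖ ≤ 1 := by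
    apply norm_lt_three
    have h6 : ‖Q3 B * ι t‖ ^ 2 ≤ 1 := pow_le_one₀ (norm_nonneg _) nB'
    nlinarith [norm_nonneg B]
  have nB1 : ‖Q3 B * ι t‖ < 1 := by
    have h6 : ‖B‖ ^ 2 ≤ 1 := pow_le_one₀ (norm_nonneg _) nB
    nlinarith [norm_nonneg (Q3 B * ι t)]
  have nA1 : ‖A‖ = 1 := by
    have h6 : Q3 A = (Q3 A + Q3 B * ι t) + -(Q3 B * ι t) := by ring
    have h7 : ‖Q3 A‖ = 1 := by
      rw [h6, IsUltrametricDist.norm_add_eq_max_of_norm_ne_norm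
        (by rw [norm_neg, n1]; exact nB1.ne'), norm_neg, n1, max_eq_left nB1.le]
    rw [Q3_norm] at h7
    exact h7
  rw [← h4]
  exact local_b nA1 nB

/-- a local cube in `ℚ(s)` -/
theorem powAt_F (ι : K →+* PadicAlgCl 3) (h : Biq K d s t) {r : ℚ_[3]} (hr : ι s = Q3 r)
    {a b : ℚ} (hp : PowAt 3 ι (cf s t a b 0 0)) : ∃ g : ℚ_[3], g ^ 3 = a + b * r := by
  rw [powAt_iff ι h hr] at hp
  obtain ⟨A, B, h3, h4⟩ := hp
  simp only [Rat.cast_zero, zero_mul, add_zero] at h4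
  have h5 : B * (A ^ 2 - B ^ 2) = 0 := by
    have : 3 * (B * (A ^ 2 - B ^ 2)) = 0 := by linear_combination h4
    rcases mul_eq_zero.1 this with h6 | h6
    · norm_num at h6
    · exact h6
  rcases mul_eq_zero.1 h5 with h6 | h6
  · subst h6
    exact ⟨A, by rw [← h3]; ring⟩
  · exact ⟨-2 * A, by rw [← h3]; linear_combination (-9 * A) * h6⟩

end RT
end BKGen
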