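import Pool.Agent.Lib.MP_7c08ba_nt.Gen.RT.FPart

/-!
The part of `K = ℚ(s, t)` inverted by `σ : t ↦ -t`: local independence of the cube root of unity
and of the unit of `ℚ(st)`.
-/

namespace BKGen
namespace RT

open NumberField IntermediateField

/-! ### A subgroup containing the cubes -/

theorem indep {G : Type*} [CommGroup G] (H : Subgroup G) (hH : ∀ v : G, v ^ 3 ∈ H) {a b : G}
    (h1 : a ∉ H) (h2 : b ∉ H) (h3 : a * b ∉ H) (h4 : a * b⁻¹ ∉ H) {x z : ℤ}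
    (h : a ^ x * b ^ z ∈ H) : (3 : ℤ) ∣ x ∧ (3 : ℤ) ∣ z := by
  have cube : ∀ (g : G) {n : ℤ}, (3 : ℤ) ∣ n → g ^ n ∈ H := by
    rintro g _ ⟨k, rfl⟩
    rw [mul_comm, zpow_mul]
    exact_mod_cast hH (g ^ k)
  by_cases hx : (3 : ℤ) ∣ x
  · refine ⟨hx, ?_⟩
    by_contra hz
    apply h2
    apply mem_of_zpow H hH hz
    have := H.mul_mem (H.inv_mem (cube a hx)) h
    rwa [inv_mul_cancel_left] at this
  · exfalso
    by_cases hz : (3 : ℤ) ∣ z
    · apply h1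
      apply mem_of_zpow H hH hx
      have := H.mul_mem h (H.inv_mem (cube b hz))
      rwa [mul_inv_cancel_right] at this
    · have h5 : (3 : ℤ) ∣ z - x ∨ (3 : ℤ) ∣ z + x := by
        have e1 : x % 3 = 1 ∨ x % 3 = 2 := by omega
        have e2 : z % 3 = 1 ∨ z % 3 = 2 := by omega
        rcases e1 with e1 | e1 <;> rcases e2 with e2 | e2
        · left; omega
        · right; omega
        · right; omega
        · left; omega
      rcases h5 with h5 | h5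
      · apply h3
        apply mem_of_zpow H hH hx
        have := H.mul_mem h (H.inv_mem (cube b h5))
        have e : a ^ x * b ^ z * (b ^ (z - x))⁻¹ = (a * b) ^ x := by
          rw [mul_zpow, mul_assoc, ← zpow_neg, ← zpow_add]
          congr 2
          ring
        rwa [e] at this
      · apply h4
        apply mem_of_zpow H hH hx
        have := H.mul_mem h (H.inv_mem (cube b h5))
        have e : a ^ x * b ^ z * (b ^ (z + x))⁻¹ = (a * b⁻¹) ^ x := by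
          rw [mul_zpow, mul_assoc, ← zpow_neg, ← zpow_add, inv_zpow, ← zpow_neg]
          congr 2
          ring
        rwa [e] at this

variable {K : Type*} [Field K] [NumberField K] {d : ℕ} {s t : K}

/-! ### Coordinates in the subfields -/

theorem mem_t (h : Biq K d s t) {x : K} (hx : x ∈ ℚ⟮t⟯) : ∃ a c : ℚ, x = cf s t a 0 c 0 := by
  have hsq : t ^ 2 = algebraMap ℚ K (-3) := by
    rw [h.t2]
    simp
  obtain ⟨A, B, rfl⟩ := mem_adjoin_sqrt hsq hx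
  refine ⟨A, B, ?_⟩
  have e1 : algebraMap ℚ K A = (A : K) := rfl
  have e2 : algebraMap ℚ K B = (B : K) := rfl
  unfold cf
  rw [e1, e2]
  push_cast
  ring

theorem cf_t_mem (a c : ℚ) : cf s t a 0 c 0 ∈ ℚ⟮t⟯ := by
  have h1 : cf s t a 0 c 0 = algebraMap ℚ K a + algebraMap ℚ K c * t := by
    have e1 : algebraMap ℚ K a = (a : K) := rfl
    have e2 : algebraMap ℚ K c = (c : K) := rfl
    unfold cf
    rw [e1, e2]
    push_cast
    ring
  rw [h1]
  exact mem_adjoin_of t a c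

theorem st_sq (h : Biq K d s t) : (s * t) ^ 2 = 3 * d := by
  rw [mul_pow, h.s2, h.t2]
  ring

theorem mem_st (h : Biq K d s t) {x : K} (hx : x ∈ ℚ⟮s * t⟯) :
    ∃ a e : ℚ, x = cf s t a 0 0 e := by
  have hsq : (s * t) ^ 2 = algebraMap ℚ K (3 * d) := by
    rw [st_sq h]
    simp
  obtain ⟨A, B, rfl⟩ := mem_adjoin_sqrt hsq hx
  refine ⟨A, B, ?_⟩
  have e1 : algebraMap ℚ K A = (A : K) := rfl
  have e2 : algebraMap ℚ K B = (B : K) := rfl
  unfold cf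
  rw [e1, e2]
  push_cast
  ring

theorem cf_st_mem (a e : ℚ) : cf s t a 0 0 e ∈ ℚ⟮s * t⟯ := by
  have h1 : cf s t a 0 0 e = algebraMap ℚ K a + algebraMap ℚ K e * (s * t) := by
    have e1 : algebraMap ℚ K a = (a : K) := rfl
    have e2 : algebraMap ℚ K e = (e : K) := rfl
    unfold cf
    rw [e1, e2]
    push_cast
    ring
  rw [h1]
  exact mem_adjoin_of (s * t) a e

/-! ### The class number of `ℚ(√-3)` -/

theorem zt_primitive (h : Biq K d s t) : IsPrimitiveRoot (zt t) 3 := by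
  rw [IsPrimitiveRoot.iff_orderOf]
  apply orderOf_eq_prime (zt_cube h)
  intro h0
  have h1 : cf s t (-3 / 2) 0 (1 / 2) 0 = 0 := by
    unfold cf
    unfold zt at h0
    push_cast
    linear_combination h0
  have := (h.ind h1).1
  norm_num at this

theorem class_t (h : Biq K d s t) : classNumber ℚ⟮t⟯ = 1 := by
  have e : ℚ⟮t⟯ = ℚ⟮zt t⟯ := by
    apply le_antisymm
    · rw [IntermediateField.adjoin_simple_le_iff]
      have e1 : 2 * zt t + 1 = t := by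
        unfold zt
        ring
      have e2 : 2 * zt t + 1 ∈ ℚ⟮zt t⟯ :=
        add_mem (mul_mem (ofNat_mem _ 2) (mem_adjoin_simple_self ℚ _)) (one_mem _)
      rwa [e1] at e2
    · rw [IntermediateField.adjoin_simple_le_iff]
      have e1 : zt t = (-1 + t) / 2 := rfl
      rw [e1]
      exact div_mem (add_mem (neg_mem (one_mem _)) (mem_adjoin_simple_self ℚ _)) (ofNat_mem _ 2)
  have hc : IsCyclotomicExtension {3} ℚ ℚ⟮zt t⟯ :=
    (zt_primitive h).intermediateField_adjoin_isCyclotomicExtension ℚ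
  rw [e, classNumber_eq_one_iff]
  exact IsCyclotomicExtension.Rat.three_pid ℚ⟮zt t⟯

/-! ### Local independence -/

theorem zt_cf : zt t = cf s t (-1 / 2) 0 (1 / 2) 0 := by
  unfold zt cf
  push_cast
  ring

theorem norm_two3 : ‖(2 : ℚ_[3])‖ = 1 := by
  have := (Padic.norm_natCast_eq_one_iff (p := 3) (n := 2)).2 (by decide)
  simpa using this

theorem norm_four3 : ‖(4 : ℚ_[3])‖ = 1 := by
  have := (Padic.norm_natCast_eq_one_iff (p := 3) (n := 4)).2 (by decide)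
  simpa using this

theorem norm_zt (ι : K →+* PadicAlgCl 3) (h : Biq K d s t) : ‖ι (zt t)‖ = 1 := by
  have : ‖ι (zt t)‖ ^ 3 = 1 := by
    rw [← norm_pow, ← map_pow, zt_cube h, map_one, norm_one]
  exact (pow_eq_one_iff_of_nonneg (norm_nonneg _) (by norm_num)).1 this

/-- `second_coord` with the norm of the conjugate supplied by `norm_sigma` -/
theorem second_coord' (ι : K →+* PadicAlgCl 3) (h : Biq K d s t) {r : ℚ_[3]} (hr : ι s = Q3 r)
    {a b c e : ℚ} (h1 : ‖ι (cf s t a b c e)‖ = 1)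
    (hp : PowAt 3 ι (cf s t a b c e)) : ‖(c : ℚ_[3]) + e * r‖ ≤ 1 / 9 := by
  obtain ⟨σ, hσs, hσt⟩ := h.exists_aut 1 (-1) (by norm_num) (by norm_num)
  refine second_coord ι h hr h1 ?_ hp
  have h2 : cf s t a b (-c) (-e) = σ (cf s t a b c e) := by
    rw [aut_mk σ hσs hσt]
    simp
  rw [h2, norm_sigma ι h σ (by simpa using hσs) (by simpa using hσt), h1]

theorem zt_not (ι : K →+* PadicAlgCl 3) (h : Biq K d s t) : ¬ PowAt 3 ι (zt t) := by
  intro hp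
  obtain ⟨r, hr, hr2, hr1⟩ := exists_r ι h
  have h1 := norm_zt ι h
  rw [zt_cf (s := s)] at h1 hp
  have h2 := second_coord' ι h hr h1 hp
  have h3 : (((1 / 2 : ℚ) : ℚ_[3]) + ((0 : ℚ) : ℚ_[3]) * r) = 1 / 2 := by
    push_cast
    ring
  rw [h3, norm_div, norm_two3, norm_one] at h2
  norm_num at h2

variable {u0 v0 : ℤ}

theorem eps_mul (h : Biq K d s t) (he : u0 ^ 2 - 3 * d * v0 ^ 2 = 4) :
    cf s t (u0 / 2) 0 0 (v0 / 2) * cf s t (u0 / 2) 0 0 (-(v0 / 2)) = 1 := by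
  have h1 : (u0 : K) ^ 2 - 3 * d * (v0 : K) ^ 2 = 4 := by exact_mod_cast he
  have h2 := st_sq h
  unfold cf
  push_cast
  linear_combination (-(v0 : K) ^ 2 / 4) * h2 + h1 / 4

theorem eps_int (h : Biq K d s t) (he : u0 ^ 2 - 3 * d * v0 ^ 2 = 4) :
    cf s t (u0 / 2) 0 0 (v0 / 2) ^ 2 - (u0 : ℤ) * cf s t (u0 / 2) 0 0 (v0 / 2) + (1 : ℤ) = 0 := by
  have h1 : (u0 : K) ^ 2 - 3 * d * (v0 : K) ^ 2 = 4 := by exact_mod_cast he
  have h2 := st_sq h
  unfold cf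
  push_cast
  linear_combination ((v0 : K) ^ 2 / 4) * h2 - h1 / 4

theorem norm_eps (ι : K →+* PadicAlgCl 3) (h : Biq K d s t)
    (he : u0 ^ 2 - 3 * d * v0 ^ 2 = 4) : ‖ι (cf s t (u0 / 2) 0 0 (v0 / 2))‖ = 1 := by
  have h1 : ‖ι (cf s t (u0 / 2) 0 0 (v0 / 2))‖ ≤ 1 :=
    norm_int_le ((integral_of (eps_int h he)).map ι.toIntAlgHom)
  have h2 : ‖ι (cf s t (u0 / 2) 0 0 (-(v0 / 2)))‖ ≤ 1 := by
    have h3 := eps_int (u0 := u0) (v0 := -v0) h (by rw [neg_sq]; exact he)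
    have h4 : (((-v0 : ℤ) : ℚ) / 2) = -(v0 / 2) := by
      push_cast
      ring
    rw [h4] at h3
    exact norm_int_le ((integral_of h3).map ι.toIntAlgHom)
  have h3 : ‖ι (cf s t (u0 / 2) 0 0 (v0 / 2))‖ * ‖ι (cf s t (u0 / 2) 0 0 (-(v0 / 2)))‖ = 1 := by
    rw [← norm_mul, ← map_mul, eps_mul h he, map_one, norm_one]
  have h4 := norm_nonneg (ι (cf s t (u0 / 2) 0 0 (v0 / 2)))
  have h5 := norm_nonneg (ι (cf s t (u0 / 2) 0 0 (-(v0 / 2))))
  nlinarith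

theorem eps_not (ι : K →+* PadicAlgCl 3) (h : Biq K d s t)
    (he : u0 ^ 2 - 3 * d * v0 ^ 2 = 4) (hv : ¬ (9 : ℤ) ∣ v0) :
    ¬ PowAt 3 ι (cf s t (u0 / 2) 0 0 (v0 / 2)) := by
  intro hp
  obtain ⟨r, hr, hr2, hr1⟩ := exists_r ι h
  have h2 := second_coord' ι h hr (norm_eps ι h he) hp
  apply hv
  apply nine_dvd
  have h3 : ((0 : ℚ) : ℚ_[3]) + (((v0 : ℚ) / 2 : ℚ) : ℚ_[3]) * r = (v0 : ℚ_[3]) / 2 * r := by
    push_cast
    ring
  rw [h3, norm_mul, norm_div, norm_two3, hr1, div_one, mul_one] at h2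
  exact h2

theorem zt_eps_not (ι : K →+* PadicAlgCl 3) (h : Biq K d s t)
    (he : u0 ^ 2 - 3 * d * v0 ^ 2 = 4) (hv : ¬ (9 : ℤ) ∣ 1 + d * v0 ^ 2) :
    ¬ PowAt 3 ι (zt t * cf s t (u0 / 2) 0 0 (v0 / 2)) := by
  intro hp
  obtain ⟨r, hr, hr2, hr1⟩ := exists_r ι h
  have ht := h.t2
  have e1 : zt t * cf s t (u0 / 2) 0 0 (v0 / 2) =
      cf s t (-(u0 / 4)) (-(3 * v0 / 4)) (u0 / 4) (-(v0 / 4)) := by
    unfold zt cf
    push_cast
    linear_combination ((v0 : K) * s / 4) * ht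
  have n1 : ‖ι (cf s t (-(u0 / 4)) (-(3 * v0 / 4)) (u0 / 4) (-(v0 / 4)))‖ = 1 := by
    rw [← e1, map_mul, norm_mul, norm_zt ι h, norm_eps ι h he, mul_one]
  rw [e1] at hp
  have h2 := second_coord' ι h hr n1 hp
  have h3 : ((((u0 : ℚ) / 4 : ℚ) : ℚ_[3]) + ((-((v0 : ℚ) / 4) : ℚ) : ℚ_[3]) * r) =
      ((u0 : ℚ_[3]) - v0 * r) / 4 := by
    push_cast
    ring
  rw [h3, norm_div, norm_four3, div_one] at h2
  apply hv
  apply nine_dvd
  have h4 : ((1 + d * v0 ^ 2 : ℤ) : ℚ_[3]) = ((u0 : ℚ_[3]) - v0 * r) * (u0 + v0 * r) / 4 := by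
    have h1 : (u0 : ℚ_[3]) ^ 2 - 3 * d * (v0 : ℚ_[3]) ^ 2 = 4 := by exact_mod_cast he
    push_cast
    linear_combination (-(1 : ℚ_[3]) / 4) * h1 + ((v0 : ℚ_[3]) ^ 2 / 4) * hr2
  have h5 : ‖(u0 : ℚ_[3]) + v0 * r‖ ≤ 1 := by
    refine (IsUltrametricDist.norm_add_le_max _ _).trans (max_le (Padic.norm_int_le_one _) ?_)
    rw [norm_mul, hr1, mul_one]
    exact Padic.norm_int_le_one _
  rw [h4, norm_div, norm_mul, norm_four3, div_one]
  have h6 := norm_nonneg ((u0 : ℚ_[3]) + v0 * r)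
  have h7 := norm_nonneg ((u0 : ℚ_[3]) - v0 * r)
  nlinarith

/-- the cube root of unity, as a unit -/
noncomputable def ztU (h : Biq K d s t) : Kˣ := Units.mk0 (zt t) (zt_ne h)

/-- the unit of `ℚ(st)` -/
noncomputable def epsU (h : Biq K d s t) (he : u0 ^ 2 - 3 * d * v0 ^ 2 = 4) : Kˣ :=
  ⟨cf s t (u0 / 2) 0 0 (v0 / 2), cf s t (u0 / 2) 0 0 (-(v0 / 2)), eps_mul h he, by
    rw [mul_comm]
    exact eps_mul h he⟩

theorem loc_indep (ι : K →+* PadicAlgCl 3) (h : Biq K d s t)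
    (he : u0 ^ 2 - 3 * d * v0 ^ 2 = 4) (hv : ¬ (9 : ℤ) ∣ v0)
    (hv2 : ¬ (9 : ℤ) ∣ 1 + d * v0 ^ 2) {x z : ℤ}
    (hp : ztU h ^ x * epsU h he ^ z ∈ LCub ι) : (3 : ℤ) ∣ x ∧ (3 : ℤ) ∣ z := by
  refine indep (LCub ι) (fun v => Cub_le ι (cube_mem_Cub v)) (zt_not ι h) (eps_not ι h he hv)
    (zt_eps_not ι h he hv2) ?_ hp
  have h1 := zt_eps_not (u0 := u0) (v0 := -v0) ι h (by rw [neg_sq]; exact he) (by rw [neg_sq]; exact hv2)
  have h4 : (((-v0 : ℤ) : ℚ) / 2) = -(v0 / 2) := by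
    push_cast
    ring
  rw [h4] at h1
  exact h1

end RT
end BKGen
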