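import Pool.Agent.Lib.MP_7c08ba_nt.Gen.RT.Loc

/-!
Units of the quadratic subfields of `K = ℚ(s, t)`.
-/

namespace BKGen
namespace RT

open NumberField IntermediateField

/-- a rational number which is integral at all primes -/
theorem rat_int {q : ℚ} (h : ∀ (l : ℕ) [Fact l.Prime], ‖(q : ℚ_[l])‖ ≤ 1) : ∃ n : ℤ, q = n := by
  have hden : q.den = 1 := by
    by_contra hne
    obtain ⟨l, hl, hld⟩ := Nat.exists_prime_and_dvd hne
    have : Fact l.Prime := ⟨hl⟩
    have h1 := h l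
    have h2 : (q : ℚ_[l]) * (q.den : ℚ_[l]) = (q.num : ℚ_[l]) := by
      exact_mod_cast congrArg (Rat.cast : ℚ → ℚ_[l]) (Rat.mul_den_eq_num q)
    have h3 : ‖(q.den : ℚ_[l])‖ < 1 := Padic.norm_natCast_lt_one_iff.2 hld
    have h4 : ‖(q.num : ℚ_[l])‖ = 1 := by
      rw [Padic.norm_intCast_eq_one_iff]
      have h5 : Nat.Coprime q.num.natAbs l := Nat.Coprime.coprime_dvd_right hld q.reduced
      exact Int.isCoprime_iff_gcd_eq_one.2 (by simpa [Int.gcd] using h5)
    have h5 : ‖(q : ℚ_[l])‖ * ‖(q.den : ℚ_[l])‖ = 1 := by rw [← norm_mul, h2, h4]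
    have h6 := norm_nonneg (q.den : ℚ_[l])
    nlinarith
  exact ⟨q.num, by rw [← Rat.num_div_den q, hden]; simp⟩

theorem rat_one {q : ℚ} (h : ∀ (l : ℕ) [Fact l.Prime], ‖(q : ℚ_[l])‖ = 1) : q = 1 ∨ q = -1 := by
  obtain ⟨n, hn⟩ := rat_int (q := q) fun l _ => (h l).le
  obtain ⟨n', hn'⟩ := rat_int (q := q⁻¹) fun l _ => by
    push_cast
    rw [norm_inv, h l, inv_one]
  have hq : q ≠ 0 := by
    rintro rfl
    have h1 := h 3
    rw [Rat.cast_zero, norm_zero] at h1
    norm_num at h1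
  have h1 : n * n' = 1 := by
    have : q * q⁻¹ = 1 := mul_inv_cancel₀ hq
    rw [hn', hn] at this
    exact_mod_cast this
  rcases Int.eq_one_or_neg_one_of_mul_eq_one h1 with h2 | h2
  · left; rw [hn, h2]; simp
  · right; rw [hn, h2]; simp

variable {K : Type*} [Field K] [NumberField K] {d : ℕ} {s t : K}

omit [NumberField K] in
theorem norm_ratK {l : ℕ} [Fact l.Prime] (j : K →+* PadicAlgCl l) [CharZero K] (q : ℚ) :
    ‖j (q : K)‖ = ‖(q : ℚ_[l])‖ := by
  have h1 : j (q : K) = algebraMap ℚ_[l] (PadicAlgCl l) (q : ℚ_[l]) := by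
    rw [map_ratCast, map_ratCast]
  rw [h1]
  exact PadicAlgCl.norm_extends l _

theorem exists_j (K : Type*) [Field K] [NumberField K] (l : ℕ) [Fact l.Prime] :
    ∃ _j : K →+* PadicAlgCl l, True :=
  ⟨(IsAlgClosed.lift : K →ₐ[ℚ] PadicAlgCl l).toRingHom, trivial⟩

/-- integrality of a rational number from embeddings -/
theorem rat_intK (ι : K →+* PadicAlgCl 3) {q : ℚ} (h3 : ‖ι (q : K)‖ ≤ 1)
    (h : ∀ (l : ℕ) [Fact l.Prime], l ≠ 3 → ∀ j : K →+* PadicAlgCl l, ‖j (q : K)‖ ≤ 1) :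
    ∃ n : ℤ, q = n := by
  refine rat_int fun l hl => ?_
  by_cases hl3 : l = 3
  · subst hl3
    rw [← norm_ratK ι]
    exact h3
  · obtain ⟨j, -⟩ := exists_j K l
    rw [← norm_ratK j]
    exact h l hl3 j

/-- units of `ℚ(s)` are cubes -/
theorem unit_s (h : Biq K d s t) {a b : ℚ} (hN : a ^ 2 + d * b ^ 2 = 1)
    (hT : ∃ n : ℤ, 2 * a = n) : ∃ v : K, v ^ 3 = cf s t a b 0 0 := by
  obtain ⟨n, hn⟩ := hT
  have ha : a = n / 2 := by linarith
  have hd : (0 : ℚ) < d := by exact_mod_cast h.dpos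
  have hn2 : n ^ 2 ≤ 4 := by
    have h1 : (n : ℚ) ^ 2 ≤ 4 := by
      rw [← hn]
      nlinarith [mul_nonneg hd.le (sq_nonneg b)]
    exact_mod_cast h1
  have hn3 : n ≤ 2 := by nlinarith
  have hn4 : -2 ≤ n := by nlinarith
  have hs := h.s2
  have hb : ∀ c : ℚ, a = c → d * b ^ 2 = 1 - c ^ 2 := by
    intro c hc
    rw [← hc]
    linarith
  interval_cases n
  · have h1 := hb (-1) (by rw [ha]; norm_num)
    have h2 : b = 0 := by
      have : (d : ℚ) * b ^ 2 = 0 := by rw [h1]; ring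
      rcases mul_eq_zero.1 this with h3 | h3
      · exact absurd h3 hd.ne'
      · exact pow_eq_zero_iff two_ne_zero |>.1 h3
    refine ⟨-1, ?_⟩
    rw [ha, h2]
    unfold cf
    push_cast
    ring
  · exfalso
    have h1 := hb (-1 / 2) (by rw [ha]; norm_num)
    have h2 := three_sq h.three (X := 1) (Y := 2 * b) (by linarith)
    have h3 : b = 0 := by linarith
    rw [h3] at h1
    norm_num at h1
  · have h1 := hb 0 (by rw [ha]; norm_num)
    refine ⟨-(b * s), ?_⟩
    have h2 : (d : K) * (b : K) ^ 2 = 1 := by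
      have : d * b ^ 2 = 1 := by linarith
      exact_mod_cast this
    rw [ha]
    unfold cf
    push_cast
    linear_combination (-(b : K) ^ 3 * s) * hs + b * s * h2
  · exfalso
    have h1 := hb (1 / 2) (by rw [ha]; norm_num)
    have h2 := three_sq h.three (X := 1) (Y := 2 * b) (by linarith)
    have h3 : b = 0 := by linarith
    rw [h3] at h1
    norm_num at h1
  · have h1 := hb 1 (by rw [ha]; norm_num)
    have h2 : b = 0 := by
      have : (d : ℚ) * b ^ 2 = 0 := by rw [h1]; ring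
      rcases mul_eq_zero.1 this with h3 | h3
      · exact absurd h3 hd.ne'
      · exact pow_eq_zero_iff two_ne_zero |>.1 h3
    refine ⟨1, ?_⟩
    rw [ha, h2]
    unfold cf
    push_cast
    ring

/-- a primitive cube root of unity -/
noncomputable def zt (t : K) : K := (-1 + t) / 2

theorem zt_cube (h : Biq K d s t) : zt t ^ 3 = 1 := by
  have ht := h.t2
  unfold zt
  field_simp
  linear_combination (-3 + t) * ht

theorem zt_ne (h : Biq K d s t) : zt t ≠ 0 := by
  intro h0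
  have := zt_cube h
  rw [h0] at this
  norm_num at this

/-- units of `ℚ(t)` -/
theorem unit_t (h : Biq K d s t) {a c : ℚ} (hN : a ^ 2 + 3 * c ^ 2 = 1)
    (hT : ∃ n : ℤ, 2 * a = n) : ∃ (k : ℕ) (v : K), cf s t a 0 c 0 = zt t ^ k * v ^ 3 := by
  obtain ⟨n, hn⟩ := hT
  have ha : a = n / 2 := by linarith
  have hn2 : n ^ 2 ≤ 4 := by
    have h1 : (n : ℚ) ^ 2 ≤ 4 := by
      rw [← hn]
      nlinarith [sq_nonneg c]
    exact_mod_cast h1
  have hn3 : n ≤ 2 := by nlinarith
  have hn4 : -2 ≤ n := by nlinarith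
  have ht := h.t2
  have hc : ∀ x : ℚ, a = x → 3 * c ^ 2 = 1 - x ^ 2 := by
    intro x hx
    rw [← hx]
    linarith
  have half : c ^ 2 = 1 / 4 → c = 1 / 2 ∨ c = -1 / 2 := by
    intro h1
    have : (c - 1 / 2) * (c + 1 / 2) = 0 := by linarith
    rcases mul_eq_zero.1 this with h2 | h2
    · left; linarith
    · right; linarith
  have two : (2 : K) ≠ 0 := two_ne_zero
  interval_cases n
  · have h1 := hc (-1) (by rw [ha]; norm_num)
    have h2 : c = 0 := by nlinarith [sq_nonneg c]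
    refine ⟨0, -1, ?_⟩
    rw [ha, h2]
    unfold cf
    push_cast
    ring
  · have h1 := hc (-1 / 2) (by rw [ha]; norm_num)
    rcases half (by linarith) with h2 | h2
    · refine ⟨1, 1, ?_⟩
      rw [ha, h2]
      unfold cf zt
      push_cast
      ring
    · refine ⟨2, 1, ?_⟩
      rw [ha, h2]
      unfold cf zt
      push_cast
      field_simp
      linear_combination -ht
  · exfalso
    have h1 := hc 0 (by rw [ha]; norm_num)
    have := three_sq (d := 1) (by norm_num) (X := c) (Y := 1) (by push_cast; linarith)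
    norm_num at this
  · have h1 := hc (1 / 2) (by rw [ha]; norm_num)
    rcases half (by linarith) with h2 | h2
    · refine ⟨2, -1, ?_⟩
      rw [ha, h2]
      unfold cf zt
      push_cast
      field_simp
      linear_combination ht
    · refine ⟨1, -1, ?_⟩
      rw [ha, h2]
      unfold cf zt
      push_cast
      ring
  · have h1 := hc 1 (by rw [ha]; norm_num)
    have h2 : c = 0 := by nlinarith [sq_nonneg c]
    refine ⟨0, 1, ?_⟩
    rw [ha, h2]
    unfold cf
    push_cast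
    ring

/-! ### Subgroups containing the cubes -/

theorem mem_of_zpow {G : Type*} [CommGroup G] (H : Subgroup G) (hH : ∀ v : G, v ^ 3 ∈ H) {x : G}
    {n : ℤ} (hn : ¬ (3 : ℤ) ∣ n) (hx : x ^ n ∈ H) : x ∈ H := by
  have h1 : IsCoprime (3 : ℤ) n := by
    rw [Int.isCoprime_iff_gcd_eq_one]
    have := (Nat.Prime.coprime_iff_not_dvd Nat.prime_three (n := n.natAbs)).2 (by
      intro h
      apply hn
      have := Int.natCast_dvd.2 h
      simpa using this)
    simpa [Int.gcd] using this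
  obtain ⟨a, b, hab⟩ := h1
  have h2 : x = (x ^ a) ^ 3 * (x ^ n) ^ b := by
    rw [← zpow_natCast, ← zpow_mul, ← zpow_mul, ← zpow_add]
    push_cast
    rw [mul_comm n b, hab, zpow_one]
  rw [h2]
  exact H.mul_mem (hH _) (H.zpow_mem hx b)

/-- the cubes -/
def Cub (K : Type*) [Field K] : Subgroup Kˣ := (powMonoidHom 3 : Kˣ →* Kˣ).range

omit [NumberField K] in
theorem cube_mem_Cub (v : Kˣ) : v ^ 3 ∈ Cub K := ⟨v, rfl⟩

omit [NumberField K] in
theorem mem_Cub_iff {u : Kˣ} : u ∈ Cub K ↔ ∃ v : K, v ^ 3 = u := by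
  constructor
  · rintro ⟨v, rfl⟩
    exact ⟨v, rfl⟩
  · rintro ⟨v, hv⟩
    have hv0 : v ≠ 0 := by
      rintro rfl
      rw [zero_pow three_ne_zero] at hv
      exact u.ne_zero hv.symm
    exact ⟨Units.mk0 v hv0, Units.ext hv⟩

/-- the local cubes -/
def LCub (ι : K →+* PadicAlgCl 3) : Subgroup Kˣ where
  carrier := {u | PowAt 3 ι (u : K)}
  one_mem' := ⟨1, one_mem _, by simp⟩
  mul_mem' := by
    rintro a b ⟨x, hx, hx2⟩ ⟨y, hy, hy2⟩
    exact ⟨x * y, mul_mem hx hy, by rw [mul_pow, hx2, hy2, Units.val_mul, map_mul]⟩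
  inv_mem' := by
    rintro a ⟨x, hx, hx2⟩
    exact ⟨x⁻¹, inv_mem hx, by rw [inv_pow, hx2, Units.val_inv_eq_inv_val, map_inv₀]⟩

omit [NumberField K] in
theorem mem_LCub {ι : K →+* PadicAlgCl 3} {u : Kˣ} : u ∈ LCub ι ↔ PowAt 3 ι (u : K) := Iff.rfl

omit [NumberField K] in
theorem Cub_le (ι : K →+* PadicAlgCl 3) : Cub K ≤ LCub ι := by
  rintro _ ⟨v, rfl⟩
  refine ⟨ι v, IntermediateField.subset_adjoin _ _ ⟨v, rfl⟩, ?_⟩
  simp

/-! ### The real quadratic subfield -/

/-- no square root of `-3` in the subfield: torsion elements are cubes -/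
theorem tors_cube (L : IntermediateField ℚ K) (hL : ∀ x ∈ L, x ^ 2 ≠ -3) {θ : Kˣ}
    (hθ : (θ : K) ∈ L) {k : ℕ} (hk : 0 < k) (h1 : θ ^ k = 1) : θ ∈ Cub K := by
  have hfin : IsOfFinOrder θ := isOfFinOrder_iff_pow_eq_one.2 ⟨k, hk, h1⟩
  set m := orderOf θ with hm
  have hm0 : 0 < m := hfin.orderOf_pos
  have hn3 : ¬ 3 ∣ m := by
    rintro ⟨n, hn⟩
    have hn0 : 0 < n := by omega
    set η : K := (θ : K) ^ n with hη
    have hηL : η ∈ L := pow_mem hθ n
    have h2 : η ^ 3 = 1 := by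
      have h3 : θ ^ m = 1 := pow_orderOf_eq_one θ
      have h4 := congrArg (fun u : Kˣ => (u : K)) h3
      simp only [Units.val_pow_eq_pow_val, Units.val_one] at h4
      rw [hη, ← pow_mul, mul_comm, ← hn]
      exact h4
    have h3 : η ≠ 1 := by
      intro h4
      have h5 : θ ^ n = 1 := by
        apply Units.ext
        simpa using h4
      have h6 := orderOf_dvd_of_pow_eq_one h5
      have := Nat.le_of_dvd hn0 h6
      omega
    have h4 : η ^ 2 + η + 1 = 0 := by
      have h5 : (η - 1) * (η ^ 2 + η + 1) = 0 := by linear_combination h2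
      rcases mul_eq_zero.1 h5 with h6 | h6
      · exact absurd (sub_eq_zero.1 h6) h3
      · exact h6
    apply hL (2 * η + 1)
    · exact add_mem (mul_mem (ofNat_mem L 2) hηL) (one_mem L)
    · linear_combination 4 * h4
  refine mem_of_zpow (Cub K) cube_mem_Cub (n := (m : ℤ)) ?_ ?_
  · intro h
    exact hn3 (by exact_mod_cast h)
  · rw [zpow_natCast, pow_orderOf_eq_one]
    exact one_mem _

/-- two units of a field of degree at most two are dependent -/
theorem dep (L : Type*) [Field L] [NumberField L] (hL : Module.finrank ℚ L ≤ 2) (u v : (𝓞 L)ˣ) :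
    ∃ m n : ℤ, ¬ (m = 0 ∧ n = 0) ∧ ∃ k : ℕ, 0 < k ∧ (u ^ m * v ^ n) ^ k = 1 := by
  have hr : Module.finrank ℤ (Additive (𝓞 L)ˣ) ≤ 1 := by
    rw [Units.finrank_eq, Units.rank]
    have h1 := InfinitePlace.card_add_two_mul_card_eq_rank L
    have h2 : Fintype.card (InfinitePlace L) =
        InfinitePlace.nrRealPlaces L + InfinitePlace.nrComplexPlaces L :=
      InfinitePlace.card_eq_nrRealPlaces_add_nrComplexPlaces L
    omega
  have h1 : ¬ LinearIndependent ℤ ![Additive.ofMul u, Additive.ofMul v] := by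
    intro h
    have := h.fintype_card_le_finrank
    simp only [Fintype.card_fin] at this
    omega
  rw [LinearIndependent.pair_iff] at h1
  push Not at h1
  obtain ⟨m, n, h2, h3⟩ := h1
  refine ⟨m, n, fun h => h3 h.1 h.2, 1, one_pos, ?_⟩
  rw [pow_one]
  have h5 : Additive.toMul (m • Additive.ofMul u + n • Additive.ofMul v) = 1 := by
    rw [h2]
    rfl
  simpa using h5

/-- a unit of the ring of integers from its quadratic equation -/
theorem exists_unit_of {L : Type*} [Field L] [NumberField L] {x : L} {T : ℤ}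
    (h : x ^ 2 - T * x + 1 = 0) : ∃ U : (𝓞 L)ˣ, ((U : 𝓞 L) : L) = x := by
  have key : ∀ y : L, y ^ 2 - T * y + 1 = 0 → IsIntegral ℤ y := by
    intro y hy
    refine ⟨Polynomial.X ^ 2 - Polynomial.C T * Polynomial.X + 1, ?_, ?_⟩
    · monicity!
    · simp only [Polynomial.eval₂_add, Polynomial.eval₂_sub, Polynomial.eval₂_mul,
        Polynomial.eval₂_pow, Polynomial.eval₂_X, Polynomial.eval₂_C, Polynomial.eval₂_one]
      simpa using hy
  have h1 := key x h
  have h2 := key (T - x) (by linear_combination h)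
  have h3 : x * (T - x) = 1 := by linear_combination -h
  refine ⟨⟨⟨x, h1⟩, ⟨T - x, h2⟩, ?_, ?_⟩, rfl⟩
  · apply RingOfIntegers.ext
    simpa using h3
  · apply RingOfIntegers.ext
    rw [mul_comm]
    simpa using h3

/-- units of `ℚ(st)` modulo cubes -/
theorem unit_st (h : Biq K d s t) (ι : K →+* PadicAlgCl 3) {ε u : Kˣ} {T T' : ℤ}
    (hεL : (ε : K) ∈ ℚ⟮s * t⟯) (huL : (u : K) ∈ ℚ⟮s * t⟯)
    (hε : (ε : K) ^ 2 - T * ε + 1 = 0) (hu : (u : K) ^ 2 - T' * u + 1 = 0)
    (hloc : ∀ n : ℤ, ε ^ n ∈ LCub ι → (3 : ℤ) ∣ n) : ∃ (z : ℤ) (v : Kˣ), u = ε ^ z * v ^ 3 := by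
  set L := ℚ⟮s * t⟯ with hL
  have hsq : (s * t) ^ 2 = algebraMap ℚ K (3 * d) := by
    rw [mul_pow, h.s2, h.t2]
    simp
    ring
  have hno : ∀ x ∈ L, x ^ 2 ≠ -3 := by
    intro x hx h0
    obtain ⟨A, B, rfl⟩ := mem_adjoin_sqrt hsq hx
    have h1 : ((algebraMap ℚ K A + algebraMap ℚ K B * (s * t)) - t) *
        ((algebraMap ℚ K A + algebraMap ℚ K B * (s * t)) + t) = 0 := by
      linear_combination h0 - h.t2
    have e1 : algebraMap ℚ K A = (A : K) := rfl
    have e2 : algebraMap ℚ K B = (B : K) := rfl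
    rcases mul_eq_zero.1 h1 with h2 | h2
    · have h3 : cf s t A 0 (-1) B = 0 := by
        unfold cf
        rw [e1, e2] at h2
        push_cast
        linear_combination h2
      have := (h.ind h3).2.2.1
      norm_num at this
    · have h3 : cf s t A 0 1 B = 0 := by
        unfold cf
        rw [e1, e2] at h2
        push_cast
        linear_combination h2
      have := (h.ind h3).2.2.1
      norm_num at this
  have hfin : Module.finrank ℚ L ≤ 2 := by
    have hint : IsIntegral ℚ (s * t) := Algebra.IsIntegral.isIntegral _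
    rw [hL, IntermediateField.adjoin.finrank hint]
    have h1 : minpoly ℚ (s * t) ∣ Polynomial.X ^ 2 - Polynomial.C (3 * (d : ℚ)) := by
      apply minpoly.dvd
      simp only [map_sub, map_pow, Polynomial.aeval_X, Polynomial.aeval_C]
      rw [hsq]
      simp
    have h2 := Polynomial.natDegree_le_of_dvd h1
      (Polynomial.Monic.ne_zero (Polynomial.monic_X_pow_sub_C _ two_ne_zero))
    rwa [Polynomial.natDegree_X_pow_sub_C] at h2
  -- units of the ring of integers
  obtain ⟨U, hU⟩ := exists_unit_of (L := L) (x := ⟨u, huL⟩) (T := T') (by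
    apply Subtype.ext
    simpa using hu)
  obtain ⟨E, hE⟩ := exists_unit_of (L := L) (x := ⟨ε, hεL⟩) (T := T) (by
    apply Subtype.ext
    simpa using hε)
  obtain ⟨m, n, hmn, k, hk, hk1⟩ := dep L hfin U E
  -- transfer to `K`
  set f : (𝓞 L)ˣ →* Kˣ := Units.map (((algebraMap L K).comp (algebraMap (𝓞 L) L)) : 𝓞 L →* K)
    with hf
  have fU : f U = u := by
    apply Units.ext
    change ((((U : 𝓞 L) : L)) : K) = u
    rw [hU]
  have fE : f E = ε := by
    apply Units.ext
    change ((((E : 𝓞 L) : L)) : K) = ε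
    rw [hE]
  have h1 : (u ^ m * ε ^ n) ^ k = 1 := by
    have := congrArg f hk1
    rwa [map_pow, map_mul, map_zpow, map_zpow, fU, fE, map_one] at this
  -- divide by the greatest common divisor
  set g : ℕ := Int.gcd m n with hg
  have hg0 : 0 < g := by
    rw [hg, Int.gcd_pos_iff]
    by_contra hcon
    push Not at hcon
    exact hmn hcon
  obtain ⟨m', hm'⟩ : (g : ℤ) ∣ m := Int.gcd_dvd_left m n
  obtain ⟨n', hn'⟩ : (g : ℤ) ∣ n := Int.gcd_dvd_right m n
  have hcop : ¬ ((3 : ℤ) ∣ m' ∧ (3 : ℤ) ∣ n') := by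
    rintro ⟨⟨a, ha⟩, ⟨b, hb⟩⟩
    have h2 : (3 * g : ℤ) ∣ m := ⟨a, by rw [hm', ha]; ring⟩
    have h3 : (3 * g : ℤ) ∣ n := ⟨b, by rw [hn', hb]; ring⟩
    have h4 := Int.dvd_coe_gcd h2 h3
    rw [← hg] at h4
    have h5 : 3 * g ∣ g := by exact_mod_cast h4
    have := Nat.le_of_dvd hg0 h5
    omega
  set θ : Kˣ := u ^ m' * ε ^ n' with hθ
  have hθ1 : θ ^ (g * k) = 1 := by
    rw [pow_mul, hθ, mul_pow, ← zpow_natCast (u ^ m'), ← zpow_natCast (ε ^ n'), ← zpow_mul,
      ← zpow_mul, mul_comm m', mul_comm n', ← hm', ← hn']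
    exact h1
  have hθL : (θ : K) ∈ L := by
    rw [hθ, Units.val_mul, Units.val_zpow_eq_zpow_val, Units.val_zpow_eq_zpow_val]
    exact mul_mem (zpow_mem huL _) (zpow_mem hεL _)
  have hc := tors_cube L hno hθL (Nat.mul_pos hg0 hk) hθ1
  obtain ⟨v, hv⟩ := hc
  change v ^ 3 = θ at hv
  by_cases h3m : (3 : ℤ) ∣ m'
  · exfalso
    obtain ⟨a, ha⟩ := h3m
    have h3n : ¬ (3 : ℤ) ∣ n' := fun hb => hcop ⟨⟨a, ha⟩, hb⟩
    apply h3n
    apply hloc
    apply Cub_le
    have h2 : ε ^ n' = (v * (u ^ a)⁻¹) ^ 3 := by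
      rw [mul_pow, hv, hθ, ha, inv_pow, ← zpow_natCast (u ^ a), ← zpow_mul, mul_comm a]
      push_cast
      rw [mul_comm (u ^ (3 * a)), mul_assoc, mul_inv_cancel, mul_one]
    rw [h2]
    exact cube_mem_Cub _
  · -- `u ^ m'` determines `u`
    have h1 : IsCoprime (3 : ℤ) m' := by
      rw [Int.isCoprime_iff_gcd_eq_one]
      have := (Nat.Prime.coprime_iff_not_dvd Nat.prime_three (n := m'.natAbs)).2 (by
        intro h
        apply h3m
        have := Int.natCast_dvd.2 h
        simpa using this)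
      simpa [Int.gcd] using this
    obtain ⟨a, b, hab⟩ := h1
    refine ⟨-(n' * b), u ^ a * v ^ b, ?_⟩
    have h2 : u = (u ^ a) ^ 3 * (u ^ m') ^ b := by
      rw [← zpow_natCast, ← zpow_mul, ← zpow_mul, ← zpow_add]
      push_cast
      rw [mul_comm m' b, hab, zpow_one]
    have h4 : u ^ m' = v ^ 3 * (ε ^ n')⁻¹ := by
      rw [hv, hθ, mul_assoc, mul_inv_cancel, mul_one]
    conv_lhs => rw [h2, h4]
    rw [mul_zpow, inv_zpow, ← zpow_mul, zpow_neg, mul_pow, ← zpow_natCast (v ^ b), ← zpow_mul,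
      ← zpow_natCast v, ← zpow_mul]
    push_cast
    rw [mul_comm b 3]
    simp only [mul_comm, mul_assoc]

end RT
end BKGen
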