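import Mathlib

/-!
Discriminants and class numbers of quadratic fields.
-/

namespace BKGen
namespace RT

open NumberField Module

/-- a quadratic field `ℚ(θ)`, `θ² = m` -/
structure Qd (L : Type*) [Field L] [NumberField L] (θ : 𝓞 L) (m : ℤ) : Prop where
  sq : θ ^ 2 = (m : 𝓞 L)
  span : ∀ x : L, ∃ A B : ℚ, x = (A : L) + B * (θ : L)
  ind : ∀ A B : ℚ, (A : L) + B * (θ : L) = 0 → A = 0 ∧ B = 0

variable {L : Type*} [Field L] [NumberField L] {θ : 𝓞 L} {m : ℤ}

theorem Qd.sqL (h : Qd L θ m) : (θ : L) ^ 2 = m := by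
  have := congrArg (fun x : 𝓞 L => (x : L)) h.sq
  simpa using this

theorem Qd.li (h : Qd L θ m) : LinearIndependent ℚ ![(1 : L), (θ : L)] := by
  rw [LinearIndependent.pair_iff]
  intro a b hab
  apply h.ind a b
  rw [Algebra.smul_def, Algebra.smul_def, mul_one] at hab
  exact hab

theorem Qd.top (h : Qd L θ m) : ⊤ ≤ Submodule.span ℚ (Set.range ![(1 : L), (θ : L)]) := by
  intro x _
  obtain ⟨A, B, rfl⟩ := h.span x
  have h1 : (1 : L) ∈ Set.range ![(1 : L), (θ : L)] := ⟨0, rfl⟩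
  have h2 : (θ : L) ∈ Set.range ![(1 : L), (θ : L)] := ⟨1, rfl⟩
  have e : (A : L) + B * (θ : L) = A • (1 : L) + B • (θ : L) := by
    rw [Algebra.smul_def, Algebra.smul_def, mul_one]
    rfl
  rw [e]
  exact Submodule.add_mem _ (Submodule.smul_mem _ _ (Submodule.subset_span h1))
    (Submodule.smul_mem _ _ (Submodule.subset_span h2))

noncomputable def Qd.bas (h : Qd L θ m) : Basis (Fin 2) ℚ L := Basis.mk h.li h.top

theorem Qd.bas0 (h : Qd L θ m) : h.bas 0 = 1 := by
  unfold Qd.bas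
  rw [Basis.mk_apply]
  rfl

theorem Qd.bas1 (h : Qd L θ m) : h.bas 1 = (θ : L) := by
  unfold Qd.bas
  rw [Basis.mk_apply]
  rfl

theorem Qd.finrank (h : Qd L θ m) : Module.finrank ℚ L = 2 := by
  rw [Module.finrank_eq_card_basis h.bas]
  rfl

theorem Qd.trace (h : Qd L θ m) : Algebra.trace ℤ (𝓞 L) θ = 0 := by
  have h1 : Algebra.trace ℚ L (θ : L) = 0 := by
    rw [Algebra.trace_eq_matrix_trace h.bas, Matrix.trace_fin_two,
      Algebra.leftMulMatrix_eq_repr_mul, Algebra.leftMulMatrix_eq_repr_mul]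
    have e0 : (θ : L) * h.bas 0 = h.bas 1 := by rw [h.bas0, h.bas1, mul_one]
    have e1 : (θ : L) * h.bas 1 = (m : ℚ) • h.bas 0 := by
      rw [h.bas0, h.bas1, Algebra.smul_def, mul_one, ← pow_two, h.sqL]
      simp
    rw [e0, e1, map_smul, Basis.repr_self, Basis.repr_self]
    simp
  have h2 := Algebra.coe_trace_int (K := L) θ
  rw [h1] at h2
  exact_mod_cast h2

theorem Qd.norm_add (h : Qd L θ m) (a : ℤ) : Algebra.norm ℤ ((a : 𝓞 L) + θ) = a ^ 2 - m := by
  have h1 : Algebra.norm ℚ (((a : 𝓞 L) + θ : 𝓞 L) : L) = a ^ 2 - m := by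
    have e : (((a : 𝓞 L) + θ : 𝓞 L) : L) = (a : L) + (θ : L) := by simp
    rw [e, Algebra.norm_eq_matrix_det h.bas, Matrix.det_fin_two,
      Algebra.leftMulMatrix_eq_repr_mul, Algebra.leftMulMatrix_eq_repr_mul,
      Algebra.leftMulMatrix_eq_repr_mul, Algebra.leftMulMatrix_eq_repr_mul]
    have e0 : ((a : L) + (θ : L)) * h.bas 0 = (a : ℚ) • h.bas 0 + h.bas 1 := by
      rw [h.bas0, h.bas1, mul_one, Algebra.smul_def, mul_one]
      simp
    have e1 : ((a : L) + (θ : L)) * h.bas 1 = (m : ℚ) • h.bas 0 + (a : ℚ) • h.bas 1 := by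
      rw [h.bas0, h.bas1, Algebra.smul_def, mul_one, Algebra.smul_def, add_mul, ← pow_two, h.sqL]
      simp
      ring
    rw [e0, e1, map_add, map_add, map_smul, map_smul, map_smul, Basis.repr_self, Basis.repr_self]
    simp
    ring
  have h2 := Algebra.coe_norm_int (K := L) ((a : 𝓞 L) + θ)
  rw [h1] at h2
  exact_mod_cast h2

theorem Qd.discr_le (h : Qd L θ m) (hm : m ≠ 0) : |discr L| ≤ 4 * |m| := by
  have hr : Module.finrank ℤ (𝓞 L) = 2 := by rw [RingOfIntegers.rank, h.finrank]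
  let e : Free.ChooseBasisIndex ℤ (𝓞 L) ≃ Fin 2 := Fintype.equivOfCardEq (by
    rw [← Module.finrank_eq_card_chooseBasisIndex, hr]
    rfl)
  set B : Basis (Fin 2) ℤ (𝓞 L) := (RingOfIntegers.basis L).reindex e with hB
  have h1 : Algebra.discr ℤ B = discr L := discr_eq_discr L B
  set b : Fin 2 → 𝓞 L := ![1, θ] with hb
  have h2 : Algebra.discr ℤ b = (B.toMatrix b).det ^ 2 * discr L := by
    rw [← h1]
    have h3 := Algebra.discr_of_matrix_vecMul (A := ℤ) B (B.toMatrix b)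
    rw [Basis.toMatrix_map_vecMul] at h3
    exact h3
  have h3 : Algebra.discr ℤ b = 4 * m := by
    rw [Algebra.discr_def, Matrix.det_fin_two]
    simp only [Algebra.traceMatrix_apply, Algebra.traceForm_apply]
    have e0 : b 0 = 1 := rfl
    have e1 : b 1 = θ := rfl
    rw [e0, e1, mul_one, mul_one, one_mul, h.trace, ← pow_two, h.sq]
    have e2 : Algebra.trace ℤ (𝓞 L) (1 : 𝓞 L) = 2 := by
      have := Algebra.trace_algebraMap (S := 𝓞 L) (1 : ℤ)
      rw [map_one, hr] at this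
      simpa using this
    have e3 : Algebra.trace ℤ (𝓞 L) ((m : ℤ) : 𝓞 L) = 2 * m := by
      have := Algebra.trace_algebraMap (S := 𝓞 L) (m : ℤ)
      rw [hr] at this
      simpa using this
    rw [e2, e3]
    ring
  rw [h3] at h2
  have h4 : (B.toMatrix b).det ≠ 0 := by
    intro h0
    rw [h0] at h2
    apply hm
    linarith
  have h5 : 1 ≤ (B.toMatrix b).det ^ 2 := by
    have : 0 < (B.toMatrix b).det ^ 2 := by positivity
    omega
  have h6 : |4 * m| = (B.toMatrix b).det ^ 2 * |discr L| := by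
    rw [h2, abs_mul, abs_of_nonneg (sq_nonneg _)]
  have h7 : |4 * m| = 4 * |m| := by rw [abs_mul]; rfl
  rw [← h7, h6]
  nlinarith [abs_nonneg (discr L)]

/-- `ℚ(√-2)` (more generally discriminant less than ten in absolute value) -/
theorem Qd.classNo_small (h : Qd L θ m) (hm : m ≠ 0) (hm2 : |m| ≤ 2) : classNumber L = 1 := by
  rw [classNumber_eq_one_iff]
  apply RingOfIntegers.isPrincipalIdealRing_of_abs_discr_lt
  have h1 := h.discr_le hm
  have h2 : |discr L| ≤ 8 := by linarith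
  have h3 : ((|discr L| : ℤ) : ℝ) ≤ 8 := by exact_mod_cast h2
  have h4 := InfinitePlace.card_add_two_mul_card_eq_rank L
  rw [h.finrank] at h4
  have h5 : InfinitePlace.nrComplexPlaces L ≤ 1 := by omega
  have hpi := Real.pi_gt_d2
  have hpi4 : Real.pi / 4 ≤ 1 := by
    have := Real.pi_le_four
    linarith
  have h6 : Real.pi / 4 ≤ (Real.pi / 4) ^ InfinitePlace.nrComplexPlaces L := by
    calc Real.pi / 4 = (Real.pi / 4) ^ 1 := (pow_one _).symm
      _ ≤ _ := pow_le_pow_of_le_one (by positivity) hpi4 h5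
  rw [h.finrank]
  have h7 : (((2 : ℕ) : ℝ) ^ 2 / (Nat.factorial 2 : ℕ)) = 2 := by norm_num [Nat.factorial]
  rw [h7]
  have h8 : Real.pi ≤ 2 * (Real.pi / 4) ^ InfinitePlace.nrComplexPlaces L * 2 := by linarith
  have h9 : (9 : ℝ) < Real.pi ^ 2 := by nlinarith
  have h10 : Real.pi ^ 2 ≤ (2 * (Real.pi / 4) ^ InfinitePlace.nrComplexPlaces L * 2) ^ 2 :=
    pow_le_pow_left₀ Real.pi_pos.le h8 2
  push_cast at h3 ⊢
  linarith

theorem Qd.real (h : Qd L θ m) (hm : 0 < m) : InfinitePlace.nrComplexPlaces L = 0 := by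
  rw [NumberField.nrComplexPlaces_eq_zero_iff]
  refine ⟨fun w => ?_⟩
  rw [InfinitePlace.isReal_iff]
  set φ := w.embedding
  have hz : (φ (θ : L)) ^ 2 = m := by
    rw [← map_pow, h.sqL]
    simp
  have hz2 : (starRingEnd ℂ) (φ (θ : L)) = φ (θ : L) := by
    have h1 : ((starRingEnd ℂ) (φ (θ : L)) - φ (θ : L)) *
        ((starRingEnd ℂ) (φ (θ : L)) + φ (θ : L)) = 0 := by
      have h2 := congrArg (starRingEnd ℂ) hz
      rw [map_pow, map_intCast] at h2
      linear_combination h2 - hz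
    rcases mul_eq_zero.1 h1 with h2 | h2
    · exact sub_eq_zero.1 h2
    · exfalso
      have h3 : (starRingEnd ℂ) (φ (θ : L)) * φ (θ : L) = -(m : ℂ) := by
        rw [eq_neg_of_add_eq_zero_left h2]
        linear_combination -hz
      rw [mul_comm, Complex.mul_conj] at h3
      have h4 : (Complex.normSq (φ (θ : L)) : ℝ) = -(m : ℝ) := by exact_mod_cast h3
      have h5 := Complex.normSq_nonneg (φ (θ : L))
      have h6 : (0 : ℝ) < m := by exact_mod_cast hm
      linarith
  rw [ComplexEmbedding.isReal_iff]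
  ext x
  obtain ⟨A, B, rfl⟩ := h.span x
  rw [ComplexEmbedding.conjugate_coe_eq]
  simp only [map_add, map_mul, map_ratCast, hz2]

/-- `ℚ(√6)` -/
theorem Qd.classNo_six (h : Qd L θ 6) : classNumber L = 1 := by
  rw [classNumber_eq_one_iff]
  apply RingOfIntegers.isPrincipalIdealRing_of_isPrincipal_of_norm_le
  intro I hI
  rw [h.real (by norm_num), h.finrank, pow_zero, one_mul] at hI
  have h1 : |discr L| ≤ 24 := (h.discr_le (by norm_num)).trans (by norm_num)
  have h2 : ((|discr L| : ℤ) : ℝ) ≤ 24 := by exact_mod_cast h1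
  have h3 : Real.sqrt (|discr L| : ℤ) < 5 := by
    rw [Real.sqrt_lt' (by norm_num)]
    linarith
  have h4 : (Ideal.absNorm (I : Ideal (𝓞 L)) : ℝ) < 3 := by
    refine hI.trans_lt ?_
    have h7 : ((Nat.factorial 2 : ℕ) : ℝ) / ((2 : ℕ) : ℝ) ^ 2 = 1 / 2 := by
      norm_num [Nat.factorial]
    rw [h7]
    push_cast at h3 ⊢
    linarith
  have h5 : Ideal.absNorm (I : Ideal (𝓞 L)) < 3 := by exact_mod_cast h4
  have h0 : Ideal.absNorm (I : Ideal (𝓞 L)) ≠ 0 := Ideal.absNorm_ne_zero_of_nonZeroDivisors I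
  generalize (I : Ideal (𝓞 L)) = J at *
  have h6 : Ideal.absNorm J = 1 ∨ Ideal.absNorm J = 2 := by omega
  rcases h6 with h6 | h6
  · rw [Ideal.absNorm_eq_one_iff.1 h6]
    exact top_isPrincipal
  · have hp : J.IsPrime := Ideal.isPrime_of_irreducible_absNorm (by
      rw [h6]
      exact Nat.prime_two)
    have h7 : (2 : 𝓞 L) ∈ J := by
      have := Ideal.absNorm_mem J
      rw [h6] at this
      exact_mod_cast this
    have h8 : θ ∈ J := by
      apply hp.mem_of_pow_mem 2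
      rw [h.sq]
      have : ((6 : ℤ) : 𝓞 L) = 3 * 2 := by norm_num
      rw [this]
      exact J.mul_mem_left _ h7
    have h9 : (((2 : ℤ) : 𝓞 L) + θ) ∈ J := by
      apply J.add_mem _ h8
      exact_mod_cast h7
    have h10 : Ideal.absNorm (Ideal.span {((2 : ℤ) : 𝓞 L) + θ}) = 2 := by
      rw [Ideal.absNorm_span_singleton, h.norm_add]
      norm_num
    obtain ⟨J', hJ'⟩ := Ideal.dvd_iff_le.2 ((Ideal.span_singleton_le_iff_mem J).2 h9)
    have h11 : Ideal.absNorm J' = 1 := by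
      have := congrArg Ideal.absNorm hJ'
      rw [map_mul, h10, h6] at this
      omega
    rw [Ideal.absNorm_eq_one_iff.1 h11, Ideal.mul_top] at hJ'
    exact ⟨((2 : ℤ) : 𝓞 L) + θ, hJ'.symm⟩

end RT
end BKGen
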