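import Pool.Agent.Lib.MP_7c08ba_nt.Gen.RT.Unit

/-!
The part over `F = ℚ(s)`: an element of `F` which is a cube up to units away from `3` and a local
cube at the place `ι` is a cube.
-/

namespace BKGen
namespace RT

open NumberField IntermediateField

variable {K : Type*} [Field K] [NumberField K] {d : ℕ} {s t : K}

omit [NumberField K] in
theorem SU.mul {p : ℕ} {x y : K} (hx : SU p x) (hy : SU p y) : SU p (x * y) := by
  intro l _ hlp j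
  rw [map_mul, norm_mul, hx l hlp j, hy l hlp j, mul_one]

omit [NumberField K] in
theorem SU.inv {p : ℕ} {x : K} (hx : SU p x) : SU p x⁻¹ := by
  intro l _ hlp j
  rw [map_inv₀, norm_inv, hx l hlp j, inv_one]

omit [NumberField K] in
theorem SU.pow {p : ℕ} {x : K} (hx : SU p x) (n : ℕ) : SU p (x ^ n) := by
  intro l _ hlp j
  rw [map_pow, norm_pow, hx l hlp j, one_pow]

omit [NumberField K] in
theorem SU.zpow {p : ℕ} {x : K} (hx : SU p x) (n : ℤ) : SU p (x ^ n) := by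
  intro l _ hlp j
  rw [map_zpow₀, norm_zpow, hx l hlp j, one_zpow]

omit [NumberField K] in
theorem SU.map {p : ℕ} {x : K} (hx : SU p x) (f : K →+* K) : SU p (f x) := by
  intro l _ hlp j
  exact hx l hlp (j.comp f)

/-- divisibility by nine from the norm -/
theorem nine_dvd {n : ℤ} (h : ‖(n : ℚ_[3])‖ ≤ 1 / 9) : (9 : ℤ) ∣ n := by
  have h1 := (Padic.norm_int_le_pow_iff_dvd (p := 3) n 2).1 (by
    refine h.trans (le_of_eq ?_)
    norm_num)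
  exact_mod_cast h1

theorem three_dvd {n : ℤ} (h : ‖(n : ℚ_[3])‖ < 1) : (3 : ℤ) ∣ n := by
  have h1 := (Padic.norm_intCast_lt_one_iff (p := 3) (k := n)).1 h
  exact_mod_cast h1

omit [NumberField K] in
/-- a root of `x² - Tx + N` with integral `T`, `N` is integral -/
theorem integral_of {x : K} {T N : ℤ} (h : x ^ 2 - T * x + N = 0) : IsIntegral ℤ x := by
  refine ⟨Polynomial.X ^ 2 - Polynomial.C T * Polynomial.X + Polynomial.C N, ?_, ?_⟩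
  · monicity!
  · simp only [Polynomial.eval₂_add, Polynomial.eval₂_sub, Polynomial.eval₂_mul,
      Polynomial.eval₂_pow, Polynomial.eval₂_X, Polynomial.eval₂_C]
    simpa using h

/-- the norm of an element of `ℚ(s)` at `ι` -/
theorem norm_F (ι : K →+* PadicAlgCl 3) {r : ℚ_[3]} (hr : ι s = Q3 r) (a b : ℚ) :
    ‖ι (cf s t a b 0 0)‖ = ‖(a : ℚ_[3]) + b * r‖ := by
  rw [iota_cf ι hr]
  simp only [Rat.cast_zero, zero_mul, add_zero, map_zero]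
  exact Q3_norm _

/-- the special element above `3`, for the right choice of the conjugate -/
theorem alpha_aux (ι : K →+* PadicAlgCl 3) (h : Biq K d s t) {r : ℚ_[3]} (hr : ι s = Q3 r)
    (hr2 : r ^ 2 = -(d : ℚ_[3])) {m : ℕ} (hm : ¬ 3 ∣ m) {x0 y0 : ℤ}
    (hα : x0 ^ 2 + d * y0 ^ 2 = 4 * 3 ^ m) (h9 : ¬ (9 : ℤ) ∣ x0 ^ 2 - 2 * 3 ^ m - 1)
    (hn : ‖((x0 : ℚ_[3]) / 2) + (y0 / 2) * r‖ = 1) :
    ∃ (α₁ α₂ : Kˣ) (a b : ℚ), (α₁ : K) = cf s t a b 0 0 ∧ (α₂ : K) = cf s t a (-b) 0 0 ∧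
      SU 3 (α₁ : K) ∧ SU 3 (α₂ : K) ∧ ‖ι α₁‖ = 1 ∧ ‖ι α₂‖ = (1 / 3) ^ m ∧ α₁ ∉ LCub ι := by
  have hs := h.s2
  have hprod : cf s t (x0 / 2) (y0 / 2) 0 0 * cf s t (x0 / 2) (-(y0 / 2)) 0 0 = 3 ^ m := by
    have h1 : (x0 : K) ^ 2 + d * (y0 : K) ^ 2 = 4 * 3 ^ m := by exact_mod_cast hα
    unfold cf
    push_cast
    linear_combination (-(y0 : K) ^ 2 / 4) * hs + h1 / 4
  have h3 : (3 : K) ^ m ≠ 0 := pow_ne_zero _ three_ne_zero
  have ne1 : cf s t (x0 / 2) (y0 / 2) 0 0 ≠ 0 := by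
    intro h0
    rw [h0, zero_mul] at hprod
    exact h3 hprod.symm
  have ne2 : cf s t (x0 / 2) (-(y0 / 2)) 0 0 ≠ 0 := by
    intro h0
    rw [h0, mul_zero] at hprod
    exact h3 hprod.symm
  have int1 : ∀ b : ℚ, b ^ 2 = (y0 / 2) ^ 2 → IsIntegral ℤ (cf s t (x0 / 2) b 0 0) := by
    intro b hb
    refine integral_of (T := x0) (N := 3 ^ m) ?_
    have h1 : (x0 : K) ^ 2 + d * (y0 : K) ^ 2 = 4 * 3 ^ m := by exact_mod_cast hα
    have h2 : (b : K) ^ 2 = ((y0 : K) / 2) ^ 2 := by exact_mod_cast hb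
    unfold cf
    push_cast
    linear_combination (b : K) ^ 2 * hs - d * h2 - h1 / 4
  have i1 := int1 (y0 / 2) rfl
  have i2 := int1 (-(y0 / 2)) (by ring)
  have hle : ∀ x : K, IsIntegral ℤ x → ∀ (l : ℕ) [Fact l.Prime] (j : K →+* PadicAlgCl l),
      ‖j x‖ ≤ 1 := fun x hx l _ j => norm_int_le (hx.map j.toIntAlgHom)
  have hp3 : ∀ (l : ℕ) [Fact l.Prime] (j : K →+* PadicAlgCl l), l ≠ 3 →
      ‖j (cf s t (x0 / 2) (y0 / 2) 0 0)‖ * ‖j (cf s t (x0 / 2) (-(y0 / 2)) 0 0)‖ = 1 := by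
    intro l _ j hl
    rw [← norm_mul, ← map_mul, hprod, map_pow, norm_pow]
    have h1 : j 3 = ((3 : ℕ) : PadicAlgCl l) := by
      rw [map_ofNat]
      norm_num
    rw [h1, norm_nat_ne Nat.prime_three hl, one_pow]
  have su1 : SU 3 (cf s t (x0 / 2) (y0 / 2) 0 0) := by
    intro l _ hl j
    have e1 := hp3 l j hl
    have e2 := hle _ i1 l j
    have e3 := hle _ i2 l j
    have e4 := norm_nonneg (j (cf s t (x0 / 2) (y0 / 2) 0 0))
    have e5 := norm_nonneg (j (cf s t (x0 / 2) (-(y0 / 2)) 0 0))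
    nlinarith
  have su2 : SU 3 (cf s t (x0 / 2) (-(y0 / 2)) 0 0) := by
    intro l _ hl j
    have e1 := hp3 l j hl
    rw [su1 l hl j, one_mul] at e1
    exact e1
  have n1 : ‖ι (cf s t (x0 / 2) (y0 / 2) 0 0)‖ = 1 := by
    rw [norm_F ι hr]
    push_cast
    exact hn
  have n2 : ‖ι (cf s t (x0 / 2) (-(y0 / 2)) 0 0)‖ = (1 / 3) ^ m := by
    have e1 : ‖ι (cf s t (x0 / 2) (y0 / 2) 0 0)‖ * ‖ι (cf s t (x0 / 2) (-(y0 / 2)) 0 0)‖ =
        (1 / 3) ^ m := by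
      rw [← norm_mul, ← map_mul, hprod, map_pow, norm_pow, iota3, ← Q33, Q3_norm, norm3]
    rw [n1, one_mul] at e1
    exact e1
  refine ⟨Units.mk0 _ ne1, Units.mk0 _ ne2, x0 / 2, y0 / 2, rfl, rfl, su1, su2, n1, n2, ?_⟩
  intro hL
  rw [mem_LCub] at hL
  obtain ⟨g, hg⟩ := powAt_F ι h hr hL
  apply h9
  apply nine_dvd
  set X : ℚ_[3] := ((x0 : ℚ_[3]) / 2) + (y0 / 2) * r with hX
  set X' : ℚ_[3] := ((x0 : ℚ_[3]) / 2) - (y0 / 2) * r with hX'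
  have e1 := local_a (g := g) (X := X) hn (by rw [hg, hX]; push_cast; ring)
  have e2 : ((x0 ^ 2 - 2 * 3 ^ m - 1 : ℤ) : ℚ_[3]) = (X ^ 2 - 1) + X' ^ 2 := by
    have h1 : (x0 : ℚ_[3]) ^ 2 + d * (y0 : ℚ_[3]) ^ 2 = 4 * 3 ^ m := by exact_mod_cast hα
    rw [hX, hX']
    push_cast
    linear_combination (-(y0 : ℚ_[3]) ^ 2 / 2) * hr2 + h1 / 2
  have e3 : ‖X'‖ ≤ 1 / 3 := by
    rw [norm_F ι hr] at n2
    have e4 : X' = ((x0 / 2 : ℚ) : ℚ_[3]) + ((-(y0 / 2) : ℚ) : ℚ_[3]) * r := by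
      rw [hX']
      push_cast
      ring
    rw [e4, n2]
    have hm0 : m ≠ 0 := by
      rintro rfl
      exact hm (dvd_zero 3)
    calc ((1 : ℝ) / 3) ^ m ≤ (1 / 3) ^ 1 :=
          pow_le_pow_of_le_one (by norm_num) (by norm_num) (Nat.one_le_iff_ne_zero.2 hm0)
      _ = 1 / 3 := pow_one _
  rw [e2]
  refine (IsUltrametricDist.norm_add_le_max _ _).trans (max_le e1 ?_)
  rw [norm_pow]
  have := norm_nonneg X'
  nlinarith

theorem exists_alpha (ι : K →+* PadicAlgCl 3) (h : Biq K d s t) {m : ℕ} (hm : ¬ 3 ∣ m)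
    {x0 y0 : ℤ} (hα : x0 ^ 2 + d * y0 ^ 2 = 4 * 3 ^ m) (hx0 : ¬ (3 : ℤ) ∣ x0)
    (h9 : ¬ (9 : ℤ) ∣ x0 ^ 2 - 2 * 3 ^ m - 1) :
    ∃ (α₁ α₂ : Kˣ) (a b : ℚ), (α₁ : K) = cf s t a b 0 0 ∧ (α₂ : K) = cf s t a (-b) 0 0 ∧
      SU 3 (α₁ : K) ∧ SU 3 (α₂ : K) ∧ ‖ι α₁‖ = 1 ∧ ‖ι α₂‖ = (1 / 3) ^ m ∧ α₁ ∉ LCub ι := by
  obtain ⟨r, hr, hr2, hr1⟩ := exists_r ι h
  have two : ‖(2 : ℚ_[3])‖ = 1 := by
    have := (Padic.norm_natCast_eq_one_iff (p := 3) (n := 2)).2 (by decide)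
    simpa using this
  have hint : ∀ n : ℤ, ‖(n : ℚ_[3]) / 2‖ ≤ 1 := by
    intro n
    rw [norm_div, two, div_one]
    exact Padic.norm_int_le_one n
  have hle : ∀ e : ℤ, ‖((x0 : ℚ_[3]) / 2) + ((e : ℤ) / 2) * r‖ ≤ 1 := by
    intro e
    refine (IsUltrametricDist.norm_add_le_max _ _).trans (max_le (hint _) ?_)
    rw [norm_mul, hr1, mul_one]
    exact hint _
  by_cases h1 : ‖((x0 : ℚ_[3]) / 2) + (y0 / 2) * r‖ = 1
  · exact alpha_aux ι h hr hr2 hm hα h9 h1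
  · refine alpha_aux ι h hr hr2 hm (y0 := -y0) (by rw [neg_sq]; exact hα) h9 ?_
    by_contra h2
    have h3 : ‖((x0 : ℚ_[3]) / 2) + (y0 / 2) * r‖ < 1 := lt_of_le_of_ne (hle y0) h1
    have h4 : ‖((x0 : ℚ_[3]) / 2) + (((-y0 : ℤ) : ℚ_[3]) / 2) * r‖ < 1 :=
      lt_of_le_of_ne (hle (-y0)) h2
    apply hx0
    apply three_dvd
    have h5 : (x0 : ℚ_[3]) = (((x0 : ℚ_[3]) / 2) + (y0 / 2) * r) +
        (((x0 : ℚ_[3]) / 2) + (((-y0 : ℤ) : ℚ_[3]) / 2) * r) := by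
      push_cast
      ring
    rw [h5]
    exact (IsUltrametricDist.norm_add_le_max _ _).trans_lt (max_lt h3 h4)

theorem mem_s (h : Biq K d s t) {x : K} (hx : x ∈ ℚ⟮s⟯) : ∃ a b : ℚ, x = cf s t a b 0 0 := by
  have hsq : s ^ 2 = algebraMap ℚ K (-(d : ℚ)) := by
    rw [h.s2]
    simp
  obtain ⟨A, B, rfl⟩ := mem_adjoin_sqrt hsq hx
  refine ⟨A, B, ?_⟩
  have e1 : algebraMap ℚ K A = (A : K) := rfl
  have e2 : algebraMap ℚ K B = (B : K) := rfl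
  unfold cf
  rw [e1, e2]
  push_cast
  ring

omit [NumberField K] in
theorem cf_s_mem [CharZero K] (a b : ℚ) : cf s t a b 0 0 ∈ ℚ⟮s⟯ := by
  have h1 : cf s t a b 0 0 = algebraMap ℚ K a + algebraMap ℚ K b * s := by
    have e1 : algebraMap ℚ K a = (a : K) := rfl
    have e2 : algebraMap ℚ K b = (b : K) := rfl
    unfold cf
    rw [e1, e2]
    push_cast
    ring
  rw [h1]
  exact mem_adjoin_of s a b

/-- a rational number of norm one at all places -/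
theorem rat_oneK (ι : K →+* PadicAlgCl 3) {q : ℚ} (h3 : ‖ι (q : K)‖ = 1)
    (h : SU 3 (q : K)) : q = 1 ∨ q = -1 := by
  refine rat_one fun l hl => ?_
  by_cases hl3 : l = 3
  · subst hl3
    rw [← norm_ratK ι]
    exact h3
  · obtain ⟨j, -⟩ := exists_j K l
    rw [← norm_ratK j]
    exact h l hl3 j

/-- units of `ℚ(s)` -/
theorem unit_F (ι : K →+* PadicAlgCl 3) (h : Biq K d s t) {A B : ℚ}
    (h1 : SU 3 (cf s t A B 0 0)) (h2 : SU 3 (cf s t A (-B) 0 0))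
    (h3 : ‖ι (cf s t A B 0 0)‖ = 1) (h4 : ‖ι (cf s t A (-B) 0 0)‖ = 1) :
    ∃ v : K, v ^ 3 = cf s t A B 0 0 := by
  have hs := h.s2
  refine unit_s h ?_ ?_
  · have e1 : ((A ^ 2 + d * B ^ 2 : ℚ) : K) = cf s t A B 0 0 * cf s t A (-B) 0 0 := by
      unfold cf
      push_cast
      linear_combination (B : K) ^ 2 * hs
    have e2 : (0 : ℚ) ≤ A ^ 2 + d * B ^ 2 := by positivity
    rcases rat_oneK ι (q := A ^ 2 + d * B ^ 2) (by rw [e1, map_mul, norm_mul, h3, h4, mul_one])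
      (by rw [e1]; exact h1.mul h2) with e3 | e3
    · exact e3
    · exfalso
      rw [e3] at e2
      norm_num at e2
  · have e1 : ((2 * A : ℚ) : K) = cf s t A B 0 0 + cf s t A (-B) 0 0 := by
      unfold cf
      push_cast
      ring
    refine rat_intK ι ?_ fun l hl hl3 j => ?_
    · rw [e1, map_add]
      exact (IsUltrametricDist.norm_add_le_max _ _).trans (by rw [h3, h4]; simp)
    · rw [e1, map_add]
      exact (IsUltrametricDist.norm_add_le_max _ _).trans (by rw [h1 l hl3 j, h2 l hl3 j]; simp)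

theorem norm_zpow3 {z : ℚ_[3]} (hz : z ≠ 0) : ∃ j : ℤ, ‖z‖ = (1 / 3 : ℝ) ^ j := by
  refine ⟨z.valuation, ?_⟩
  rw [Padic.norm_eq_zpow_neg_valuation hz]
  rw [zpow_neg, one_div, inv_zpow]
  norm_num

theorem third_inj {i j : ℤ} (h : (1 / 3 : ℝ) ^ i = (1 / 3 : ℝ) ^ j) : i = j :=
  zpow_right_injective₀ (a := (1 / 3 : ℝ)) (by norm_num) (by norm_num) h

/-- elements of `F` -/
theorem cube_F (ι : K →+* PadicAlgCl 3) (h : Biq K d s t) {m : ℕ} (hm : ¬ 3 ∣ m)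
    {x0 y0 : ℤ} (hα : x0 ^ 2 + d * y0 ^ 2 = 4 * 3 ^ m) (hx0 : ¬ (3 : ℤ) ∣ x0)
    (h9 : ¬ (9 : ℤ) ∣ x0 ^ 2 - 2 * 3 ^ m - 1) (hcl : ¬ 3 ∣ classNumber ℚ⟮s⟯)
    {n : K} (hn : n ∈ ℚ⟮s⟯) (hn0 : n ≠ 0) (h1 : PowAway 3 n) (h2 : PowAt 3 ι n) :
    ∃ v : K, v ^ 3 = n := by
  obtain ⟨r, hr, hr2, hr1⟩ := exists_r ι h
  obtain ⟨α₁, α₂, a, b, ha1, ha2, su1, su2, n1, n2, hnL⟩ := exists_alpha ι h hm hα hx0 h9
  obtain ⟨σ, hσs, hσt⟩ := h.exists_aut 1 (-1) (by norm_num) (by norm_num)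
  obtain ⟨c, hcs, hct⟩ := h.exists_aut (-1) 1 (by norm_num) (by norm_num)
  have ht := h.t2
  have hτ : ∀ b : K, b + σ b ∈ ℚ⟮s⟯ ∧ b * σ b ∈ ℚ⟮s⟯ := by
    intro x
    obtain ⟨a', b', c', e', rfl⟩ := h.span x
    rw [aut_mk σ hσs hσt]
    constructor
    · have e1 : cf s t a' b' c' e' + cf s t a' (1 * b') (-1 * c') (1 * -1 * e') =
          cf s t (2 * a') (2 * b') 0 0 := by
        unfold cf
        push_cast
        ring
      rw [e1]
      exact cf_s_mem _ _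
    · have e1 : cf s t a' b' c' e' * cf s t a' (1 * b') (-1 * c') (1 * -1 * e') =
          cf s t a' b' 0 0 ^ 2 + 3 * cf s t c' e' 0 0 ^ 2 := by
        unfold cf
        push_cast
        linear_combination (-((c' : K) + e' * s) ^ 2) * ht
      rw [e1]
      exact add_mem (pow_mem (cf_s_mem _ _) 2)
        (mul_mem (ofNat_mem _ 3) (pow_mem (cf_s_mem _ _) 2))
  obtain ⟨y, w, hy, hw, hy0, hw0, hsu, he⟩ := sunit_sub ℚ⟮s⟯ σ hτ hn hn0 h1
  obtain ⟨A, B, hAB⟩ := mem_s h hw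
  have cmk : ∀ A B : ℚ, c (cf s t A B 0 0) = cf s t A (-B) 0 0 := by
    intro A B
    rw [aut_mk c hcs hct]
    simp
  -- units of `K`
  set N : Kˣ := Units.mk0 n hn0 with hN
  set Y : Kˣ := Units.mk0 y hy0 with hY
  set W : Kˣ := Units.mk0 w hw0 with hW
  have heU : N ^ classNumber ℚ⟮s⟯ = Y ^ 3 * W := by
    apply Units.ext
    rw [Units.val_mul, Units.val_pow_eq_pow_val, Units.val_pow_eq_pow_val]
    exact he
  have hNL : N ∈ LCub ι := h2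
  have hWL : W ∈ LCub ι := by
    have e1 : W = (Y ^ 3)⁻¹ * N ^ classNumber ℚ⟮s⟯ := by
      rw [heU, inv_mul_cancel_left]
    rw [e1]
    exact mul_mem (inv_mem (Cub_le ι (cube_mem_Cub Y))) (pow_mem hNL _)
  -- the valuations of `w`
  have nz : ∀ {A B : ℚ}, cf s t A B 0 0 ≠ 0 → (A : ℚ_[3]) + B * r ≠ 0 := by
    intro A B h0 h3
    have e1 := norm_F (t := t) ι hr A B
    rw [h3, norm_zero, norm_eq_zero, map_eq_zero] at e1
    exact h0 e1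
  have hwn : cf s t A B 0 0 ≠ 0 := by rwa [← hAB]
  have hwn' : cf s t A (-B) 0 0 ≠ 0 := by
    rw [← cmk, Ne, map_eq_zero]
    exact hwn
  obtain ⟨j, hj⟩ := norm_zpow3 (nz hwn)
  obtain ⟨i, hi⟩ := norm_zpow3 (nz hwn')
  rw [← norm_F (t := t) ι hr, ← hAB] at hj
  rw [← norm_F (t := t) ι hr, ← cmk, ← hAB] at hi
  set U : Kˣ := W ^ m * (α₁ ^ i)⁻¹ * (α₂ ^ j)⁻¹ with hU
  have Uv : (U : K) = w ^ m * ((α₁ : K) ^ i)⁻¹ * ((α₂ : K) ^ j)⁻¹ := by
    rw [hU]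
    simp [hW]
  have c1 : c (α₁ : K) = α₂ := by rw [ha1, ha2, cmk]
  have c2 : c (α₂ : K) = α₁ := by rw [ha1, ha2, cmk, neg_neg]
  have nU : ‖ι (U : K)‖ = 1 := by
    rw [Uv]
    simp only [map_mul, map_pow, map_inv₀, map_zpow₀, norm_mul, norm_pow, norm_inv, norm_zpow]
    rw [hj, n1, n2, one_zpow, inv_one, mul_one, ← zpow_natCast, ← zpow_natCast, ← zpow_mul,
      ← zpow_mul, mul_comm j, mul_inv_cancel₀]
    exact zpow_ne_zero _ (by norm_num)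
  have ncU : ‖ι (c (U : K))‖ = 1 := by
    rw [Uv]
    simp only [map_mul, map_pow, map_inv₀, map_zpow₀, norm_mul, norm_pow, norm_inv, norm_zpow]
    rw [c1, c2, hi, n1, n2, one_zpow, inv_one, mul_one, ← zpow_natCast, ← zpow_natCast, ← zpow_mul,
      ← zpow_mul, mul_comm i, mul_inv_cancel₀]
    exact zpow_ne_zero _ (by norm_num)
  have suU : SU 3 (U : K) := by
    rw [Uv]
    exact ((hsu.pow m).mul (su1.zpow i).inv).mul (su2.zpow j).inv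
  have hUF : (U : K) ∈ ℚ⟮s⟯ := by
    rw [Uv, ha1, ha2]
    exact mul_mem (mul_mem (pow_mem hw _) (inv_mem (zpow_mem (cf_s_mem _ _) _)))
      (inv_mem (zpow_mem (cf_s_mem _ _) _))
  obtain ⟨A', B', hAB'⟩ := mem_s h hUF
  have hUC : U ∈ Cub K := by
    rw [mem_Cub_iff, hAB']
    apply unit_F ι h
    · rw [← hAB']
      exact suU
    · rw [← cmk, ← hAB']
      exact suU.map c
    · rw [← hAB']
      exact nU
    · rw [← cmk, ← hAB']
      exact ncU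
  -- `3` divides `j`
  have h3j : (3 : ℤ) ∣ j := by
    have e1 : PowAt 3 ι (cf s t A B 0 0) := by
      rw [← hAB]
      exact hWL
    obtain ⟨g, hg⟩ := powAt_F ι h hr e1
    have e2 : ‖g‖ ^ 3 = (1 / 3 : ℝ) ^ j := by
      rw [← norm_pow, hg, ← norm_F (t := t) ι hr, ← hAB]
      exact hj
    have hg0 : g ≠ 0 := by
      rintro rfl
      rw [norm_zero, zero_pow three_ne_zero] at e2
      exact zpow_ne_zero j (by norm_num) e2.symm
    obtain ⟨k, hk⟩ := norm_zpow3 hg0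
    rw [hk, ← zpow_natCast, ← zpow_mul] at e2
    exact ⟨k, by rw [← third_inj e2]; push_cast; ring⟩
  have hα2 : α₂ ^ j ∈ Cub K := by
    obtain ⟨k, rfl⟩ := h3j
    rw [mul_comm, zpow_mul]
    exact cube_mem_Cub _
  have hα1 : α₁ ^ i ∈ LCub ι := by
    have e1 : α₁ ^ i = W ^ m * U⁻¹ * (α₂ ^ j)⁻¹ := by
      rw [hU, mul_inv, mul_inv, inv_inv, inv_inv]
      group
    rw [e1]
    exact mul_mem (mul_mem (pow_mem hWL m) (inv_mem (Cub_le ι hUC))) (inv_mem (Cub_le ι hα2))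
  have h3i : (3 : ℤ) ∣ i := by
    by_contra hcon
    exact hnL (mem_of_zpow (LCub ι) (fun v => Cub_le ι (cube_mem_Cub v)) hcon hα1)
  have hα1' : α₁ ^ i ∈ Cub K := by
    obtain ⟨k, rfl⟩ := h3i
    rw [mul_comm, zpow_mul]
    exact cube_mem_Cub _
  have hWC : W ∈ Cub K := by
    refine mem_of_zpow (Cub K) cube_mem_Cub (n := (m : ℤ)) (by exact_mod_cast hm) ?_
    have e1 : W ^ (m : ℤ) = U * α₂ ^ j * α₁ ^ i := by
      rw [hU, zpow_natCast]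
      group
    rw [e1]
    exact mul_mem (mul_mem hUC hα2) hα1'
  have hNC : N ∈ Cub K := by
    refine mem_of_zpow (Cub K) cube_mem_Cub (n := (classNumber ℚ⟮s⟯ : ℤ))
      (by exact_mod_cast hcl) ?_
    rw [zpow_natCast, heU]
    exact mul_mem (cube_mem_Cub Y) hWC
  rw [mem_Cub_iff] at hNC
  exact hNC

end RT
end BKGen
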